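import Mathlib

set_option autoImplicit false

/-!
# Rational transductions, linear and quasi-rational languages
-/

namespace Pool.Agent.N614.QR

/-- A finite transducer: a finite nondeterministic automaton with output. A transition
`step p x y q` leads from the state `p` to the state `q`; it reads the letter `x` (or nothing, if
`x = none`) and writes the letter `y` (or nothing, if `y = none`). -/
structure Transducer (X Y : Type) where
  /-- the states -/
  Q : Type
  /-- there are finitely many states -/
  finite : Finite Q
  /-- the transitions -/
  step : Q → Option X → Option Y → Q → Prop
  /-- the initial states -/
  start : Set Q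
  /-- the final states -/
  final : Set Q

/-- `T.Run p u v q`: the transducer can go from the state `p` to the state `q` while it reads the
word `u` and writes the word `v`. -/
inductive Transducer.Run {X Y : Type} (T : Transducer X Y) :
    T.Q → List X → List Y → T.Q → Prop
  | nil (p : T.Q) : T.Run p [] [] p
  | cons {p q r : T.Q} {x : Option X} {y : Option Y} {u : List X} {v : List Y} :
      T.step p x y q → T.Run q u v r → T.Run p (x.toList ++ u) (y.toList ++ v) r

/-- The image of a language under the rational transduction computed by a finite transducer. -/
def Transducer.image {X Y : Type} (T : Transducer X Y) (L : Language X) : Language Y :=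
  {v | ∃ u ∈ L, ∃ p ∈ T.start, ∃ q ∈ T.final, T.Run p u v q}

/-- `N` belongs to the principal rational cone `T(L)` generated by `L`. -/
def InCone {X Y : Type} (L : Language X) (N : Language Y) : Prop :=
  ∃ T : Transducer X Y, N = T.image L

/-- `L` is linear: some context-free grammar in which every right-hand side contains at most one
occurrence of a nonterminal generates `L`. -/
def IsLinear {X : Type} (L : Language X) : Prop :=
  ∃ g : ContextFreeGrammar X,
    (∀ r ∈ g.rules, ∀ (a b c : List (Symbol X g.NT)) (A B : g.NT),
      r.output ≠ a ++ Symbol.nonterminal A :: (b ++ Symbol.nonterminal B :: c)) ∧
    g.language = L

/-- The image of `L` under the substitution `σ`: each letter `x` of a word of `L` is replaced by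
some word of `σ x`. -/
def subst {X Y : Type} (σ : X → Language Y) (L : Language X) : Language Y :=
  {v | ∃ u ∈ L, v ∈ (u.map σ).prod}

/-- The quasi-rational languages: the smallest family of languages over finite alphabets which
contains all linear languages and is closed under substitution. -/
inductive QuasiRational : (X : Type) → Language X → Prop
  | linear {X : Type} [Finite X] {L : Language X} : IsLinear L → QuasiRational X L
  | subst {X Y : Type} [Finite X] [Finite Y] {L : Language X} {σ : X → Language Y} :
      QuasiRational X L → (∀ x, QuasiRational Y (σ x)) → QuasiRational Y (subst σ L)

end Pool.Agent.N614.QR
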