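import Mathlib
import Pool.Agent.N614.QR.Defs

set_option autoImplicit false

/-!
# Composition of transducers
-/

namespace Pool.Agent.N614.QR

variable {X Y Z : Type}

/-- relation of a transducer -/
def Transducer.rel (T : Transducer X Y) (u : List X) (v : List Y) : Prop :=
  ∃ p ∈ T.start, ∃ q ∈ T.final, T.Run p u v q

theorem Transducer.Run.trans {T : Transducer X Y} {p q r : T.Q} {u u' : List X} {v v' : List Y}
    (h1 : T.Run p u v q) (h2 : T.Run q u' v' r) : T.Run p (u ++ u') (v ++ v') r := by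
  induction h1 with
  | nil p => simpa using h2
  | cons hs _ ih =>
    have := Transducer.Run.cons hs (ih h2)
    simpa [List.append_assoc] using this

/-- a single step -/
theorem Transducer.Run.single {T : Transducer X Y} {p q : T.Q} {x : Option X} {y : Option Y}
    (h : T.step p x y q) : T.Run p x.toList y.toList q := by
  have := Transducer.Run.cons h (Transducer.Run.nil q)
  simpa using this

/-- decomposition after the first letter -/
theorem Transducer.Run.cons_inv {T : Transducer X Y} {p q : T.Q} {w : List X} {v : List Y}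
    (h : T.Run p w v q) : ∀ {x : X} {u : List X}, w = x :: u →
      ∃ p1 p2 y v1 v2, T.Run p [] v1 p1 ∧ T.step p1 (some x) y p2 ∧ T.Run p2 u v2 q ∧
        v = v1 ++ (y.toList ++ v2) := by
  induction h with
  | nil p => intro x u h; cases h
  | @cons p q' r x' y u' v' hs hr ih =>
    intro x u h
    cases x' with
    | none =>
      obtain ⟨p1, p2, y', v1, v2, h1, h2, h3, rfl⟩ := ih h
      refine ⟨p1, p2, y', y.toList ++ v1, v2, ?_, h2, h3, by simp⟩
      exact Transducer.Run.cons (x := none) hs h1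
    | some x' =>
      have h' : x' :: u' = x :: u := h
      obtain ⟨rfl, rfl⟩ := List.cons.inj h'
      exact ⟨p, q', y, [], v', Transducer.Run.nil p, hs, hr, rfl⟩

theorem Transducer.Run.app_inv {T : Transducer X Y} {q : T.Q} {u' : List X} : ∀ (u : List X)
    {p : T.Q} {v : List Y}, T.Run p (u ++ u') v q →
      ∃ s v1 v2, T.Run p u v1 s ∧ T.Run s u' v2 q ∧ v = v1 ++ v2 := by
  intro u
  induction u with
  | nil => intro p v h; exact ⟨p, [], v, Transducer.Run.nil p, h, rfl⟩
  | cons x u ih =>
    intro p v h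
    obtain ⟨p1, p2, y, v1, v2, h1, h2, h3, rfl⟩ := h.cons_inv (x := x) (u := u ++ u') rfl
    obtain ⟨s, v3, v4, h4, h5, rfl⟩ := ih h3
    refine ⟨s, v1 ++ (y.toList ++ v3), v4, ?_, h5, by simp⟩
    exact h1.trans (Transducer.Run.cons (x := some x) h2 h4)

/-- composition -/
def Transducer.comp (T : Transducer X Y) (S : Transducer Y Z) : Transducer X Z where
  Q := T.Q × S.Q
  finite := by
    have := T.finite
    have := S.finite
    infer_instance
  step := fun p x z q =>
    (∃ y : Y, T.step p.1 x (some y) q.1 ∧ S.step p.2 (some y) z q.2) ∨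
    (T.step p.1 x none q.1 ∧ q.2 = p.2 ∧ z = none) ∨
    (S.step p.2 none z q.2 ∧ q.1 = p.1 ∧ x = none)
  start := {p | p.1 ∈ T.start ∧ p.2 ∈ S.start}
  final := {p | p.1 ∈ T.final ∧ p.2 ∈ S.final}

theorem Transducer.comp_run_of (T : Transducer X Y) (S : Transducer Y Z) {p1 q1 : T.Q}
    {u : List X} {v : List Y} (h1 : T.Run p1 u v q1) :
    ∀ {p2 q2 : S.Q} {w : List Z}, S.Run p2 v w q2 → (T.comp S).Run (p1, p2) u w (q1, q2) := by
  induction h1 with
  | nil p =>
    intro p2 q2 w h2
    -- only empty input steps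
    generalize hv : ([] : List Y) = v at h2
    induction h2 with
    | nil q => exact Transducer.Run.nil (T := T.comp S) (p, q)
    | @cons a b c y z v' w' hs _ ih =>
      cases y with
      | some y => simp at hv
      | none =>
        have hv' : [] = v' := by simpa using hv
        have := ih hv'
        have h3 : (T.comp S).step (p, a) none z (p, b) := Or.inr (Or.inr ⟨hs, rfl, rfl⟩)
        exact Transducer.Run.cons h3 this
  | @cons p q r x y u v hs hr ih =>
    intro p2 q2 w h2
    cases y with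
    | none =>
      have h3 : (T.comp S).step (p, p2) x none (q, p2) := Or.inr (Or.inl ⟨hs, rfl, rfl⟩)
      have h4 := ih (by simpa using h2)
      exact Transducer.Run.cons h3 h4
    | some y =>
      have h2' : S.Run p2 (y :: v) w q2 := by simpa using h2
      clear h2
      generalize hv : y :: v = v0 at h2'
      induction h2' with
      | nil q => simp at hv
      | @cons a b c y' z v' w' hs' hr' ih' =>
        cases y' with
        | none =>
          have hv' : y :: v = v' := by simpa using hv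
          have := ih' hv'
          have h3 : (T.comp S).step (p, a) none z (p, b) := Or.inr (Or.inr ⟨hs', rfl, rfl⟩)
          have h5 := Transducer.Run.cons h3 this
          simpa using h5
        | some y' =>
          have hv' : y :: v = y' :: v' := by simpa using hv
          obtain ⟨rfl, rfl⟩ := List.cons.inj hv'
          have h3 : (T.comp S).step (p, a) x z (q, b) := Or.inl ⟨y, hs, hs'⟩
          exact Transducer.Run.cons h3 (ih hr')

theorem Transducer.of_comp_run (T : Transducer X Y) (S : Transducer Y Z) {p q : (T.comp S).Q}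
    {u : List X} {w : List Z} (h : (T.comp S).Run p u w q) :
    ∃ v, T.Run p.1 u v q.1 ∧ S.Run p.2 v w q.2 := by
  induction h with
  | nil p => exact ⟨[], Transducer.Run.nil _, Transducer.Run.nil _⟩
  | @cons p q r x z u w hs hr ih =>
    obtain ⟨v, h1, h2⟩ := ih
    rcases hs with ⟨y, hy1, hy2⟩ | ⟨hy1, hy2, rfl⟩ | ⟨hy1, hy2, rfl⟩
    · refine ⟨y :: v, ?_, ?_⟩
      · exact Transducer.Run.cons hy1 h1
      · exact Transducer.Run.cons hy2 h2
    · refine ⟨v, ?_, ?_⟩
      · exact Transducer.Run.cons (y := none) hy1 h1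
      · rw [hy2] at h2; simpa using h2
    · refine ⟨v, ?_, ?_⟩
      · rw [hy2] at h1; simpa using h1
      · exact Transducer.Run.cons (x := none) hy1 h2

theorem Transducer.comp_rel (T : Transducer X Y) (S : Transducer Y Z) (u : List X) (w : List Z) :
    (T.comp S).rel u w ↔ ∃ v, T.rel u v ∧ S.rel v w := by
  constructor
  · rintro ⟨p, hp, q, hq, h⟩
    obtain ⟨v, h1, h2⟩ := Transducer.of_comp_run T S h
    exact ⟨v, ⟨p.1, hp.1, q.1, hq.1, h1⟩, ⟨p.2, hp.2, q.2, hq.2, h2⟩⟩
  · rintro ⟨v, ⟨p1, hp1, q1, hq1, h1⟩, ⟨p2, hp2, q2, hq2, h2⟩⟩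
    exact ⟨(p1, p2), ⟨hp1, hp2⟩, (q1, q2), ⟨hq1, hq2⟩, Transducer.comp_run_of T S h1 h2⟩

theorem inCone_iff {L : Language X} {N : Language Y} :
    InCone L N ↔ ∃ T : Transducer X Y, ∀ v, v ∈ N ↔ ∃ u ∈ L, T.rel u v := by
  constructor
  · rintro ⟨T, rfl⟩
    exact ⟨T, fun v => Iff.rfl⟩
  · rintro ⟨T, hT⟩
    exact ⟨T, Set.ext hT⟩

theorem InCone.trans {L : Language X} {M : Language Y} {N : Language Z}
    (h1 : InCone L M) (h2 : InCone M N) : InCone L N := by
  rw [inCone_iff] at h1 h2 ⊢
  obtain ⟨T, hT⟩ := h1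
  obtain ⟨S, hS⟩ := h2
  refine ⟨T.comp S, ?_⟩
  intro v
  rw [hS]
  constructor
  · rintro ⟨u, hu, hr⟩
    obtain ⟨w, hw, hr'⟩ := (hT u).1 hu
    exact ⟨w, hw, (Transducer.comp_rel T S w v).2 ⟨u, hr', hr⟩⟩
  · rintro ⟨w, hw, hr⟩
    obtain ⟨u, h3, h4⟩ := (Transducer.comp_rel T S w v).1 hr
    exact ⟨u, (hT u).2 ⟨w, hw, h3⟩, h4⟩

end Pool.Agent.N614.QR
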