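import Mathlib
import Pool.Agent.Helper178.GramLfp

set_option autoImplicit false

/-!
# The language: matching words, and words with an error in the level annotation
-/

namespace Pool.Agent.N614.QR

/-- tokens: `a`, `b` (matching letters of a spine), `d` (centre), `l`, `r` (brackets) -/
inductive Tok
  | a
  | b
  | d
  | l
  | r
  deriving DecidableEq

instance : Fintype Tok := ⟨{.a, .b, .d, .l, .r}, by intro x; cases x <;> decide⟩

/-- letters: tokens and the letter `none` of the annotations -/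
abbrev Sg := Option Tok

/-- a block -/
def blk (m : ℕ) : List Sg := List.replicate m none

/-- a token with its block -/
def tk (t : Tok) (m : ℕ) : List Sg := some t :: blk m

/-- matching words with nesting depth at most `k` -/
inductive Mt : ℕ → List Sg → Prop
  | d (k m : ℕ) : Mt k (tk .d m)
  | a (k m m' : ℕ) (u : List Sg) : Mt k u → Mt k (tk .a m ++ (u ++ tk .b m'))
  | br (k m1 m2 m3 m4 : ℕ) (x u y : List Sg) : Mt k x → Mt (k + 1) u → Mt k y →
      Mt (k + 1) (tk .l m1 ++ (x ++ (tk .r m2 ++ (u ++ (tk .l m3 ++ (y ++ tk .r m4))))))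

/-- matching words -/
def Match (w : List Sg) : Prop := ∃ k, Mt k w

/-- an error: the block after the token is too long in comparison with the block before it -/
def bad (m : ℕ) : Tok → ℕ → Prop
  | .l, m' => m ≤ 2 * m'
  | .r, m' => 2 * m + 2 ≤ m'
  | .a, m' => m + 1 ≤ m'
  | .b, m' => m + 1 ≤ m'
  | .d, m' => m + 1 ≤ m'

/-- words with an error -/
def Err (w : List Sg) : Prop :=
  ∃ u t0 m t m' v, w = u ++ (tk t0 m ++ (tk t m' ++ v)) ∧ bad m t m'

/-- the language -/
def Lang : Language Sg := {w | Match w ∨ Err w}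

theorem mem_Lang (w : List Sg) : w ∈ Lang ↔ Match w ∨ Err w := Iff.rfl

theorem Mt.mono {k k' : ℕ} {w : List Sg} (h : Mt k w) (hk : k ≤ k') : Mt k' w := by
  induction h generalizing k' with
  | d k m => exact Mt.d _ _
  | a k m m' u _ ih => exact Mt.a _ _ _ _ (ih hk)
  | br k m1 m2 m3 m4 x u y _ _ _ ih1 ih2 ih3 =>
    obtain ⟨k'', rfl⟩ : ∃ k'', k' = k'' + 1 := ⟨k' - 1, by omega⟩
    exact Mt.br _ _ _ _ _ _ _ _ (ih1 (by omega)) (ih2 hk) (ih3 (by omega))

section cf

open Symbol Pool.Agent.Helper178.Gram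

/-- nonterminals -/
inductive Nt
  | Z
  | S
  | C
  | A
  | T
  | P
  | B
  | Q
  deriving DecidableEq

/-- the rules -/
def rl : List (ContextFreeRule Sg Nt) := [
  ⟨.Z, [nonterminal .S]⟩,
  ⟨.Z, [nonterminal .A, nonterminal .T, nonterminal .P, nonterminal .A]⟩,
  ⟨.Z, [nonterminal .A, nonterminal .T, nonterminal .B, nonterminal .A]⟩,
  ⟨.Z, [nonterminal .A, nonterminal .T, nonterminal .Q, nonterminal .A]⟩,
  ⟨.S, [terminal (some .d), nonterminal .C]⟩,
  ⟨.S, [terminal (some .a), nonterminal .C, nonterminal .S, terminal (some .b), nonterminal .C]⟩,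
  ⟨.S, [terminal (some .l), nonterminal .C, nonterminal .S, terminal (some .r), nonterminal .C,
    nonterminal .S, terminal (some .l), nonterminal .C, nonterminal .S, terminal (some .r),
    nonterminal .C]⟩,
  ⟨.C, []⟩,
  ⟨.C, [terminal none, nonterminal .C]⟩,
  ⟨.A, []⟩,
  ⟨.A, [terminal none, nonterminal .A]⟩,
  ⟨.A, [nonterminal .T, nonterminal .A]⟩,
  ⟨.T, [terminal (some .a)]⟩,
  ⟨.T, [terminal (some .b)]⟩,
  ⟨.T, [terminal (some .d)]⟩,
  ⟨.T, [terminal (some .l)]⟩,
  ⟨.T, [terminal (some .r)]⟩,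
  ⟨.P, [terminal none, nonterminal .P, terminal none]⟩,
  ⟨.P, [terminal (some .a), terminal none]⟩,
  ⟨.P, [terminal (some .b), terminal none]⟩,
  ⟨.P, [terminal (some .d), terminal none]⟩,
  ⟨.B, [terminal none, terminal none, nonterminal .B, terminal none]⟩,
  ⟨.B, [terminal none, nonterminal .B, terminal none]⟩,
  ⟨.B, [nonterminal .B, terminal none]⟩,
  ⟨.B, [terminal (some .l)]⟩,
  ⟨.Q, [terminal none, nonterminal .Q, terminal none, terminal none]⟩,
  ⟨.Q, [terminal (some .r), terminal none, terminal none]⟩]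

/-- the grammar -/
def gr : ContextFreeGrammar Sg where
  NT := Nt
  initial := Nt.Z
  rules := rl.toFinset

theorem mem_gr (r : ContextFreeRule Sg Nt) : r ∈ gr.rules ↔ r ∈ rl := by
  show r ∈ rl.toFinset ↔ _
  rw [List.mem_toFinset]

/-- the interpretation -/
def In : Nt → List Sg → Prop
  | .Z, w => Match w ∨ Err w
  | .S, w => Match w
  | .C, w => ∃ m, w = blk m
  | .A, _ => True
  | .T, w => ∃ t, w = [some t]
  | .P, w => ∃ m t, (t = .a ∨ t = .b ∨ t = .d) ∧ w = blk m ++ tk t (m + 1)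
  | .B, w => ∃ m m', m ≤ 2 * m' ∧ w = blk m ++ tk .l m'
  | .Q, w => ∃ m, w = blk m ++ tk .r (2 * m + 2)

theorem blk_succ' (n : ℕ) : blk n ++ [none] = blk (n + 1) := by
  rw [blk, blk, List.replicate_succ']

theorem blk_succ (n : ℕ) : none :: blk n = blk (n + 1) := by
  rw [blk, blk, List.replicate_succ]

theorem blk_add (n m : ℕ) : blk n ++ blk m = blk (n + m) := by
  rw [blk, blk, blk, List.replicate_append_replicate]

theorem tk_append (t : Tok) (n m : ℕ) : tk t n ++ blk m = tk t (n + m) := by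
  rw [tk, tk, List.cons_append, blk_add]

theorem err_of {w1 v : List Sg} {t0 t : Tok} {m m' : ℕ} (u : List Sg)
    (h : w1 = blk m ++ tk t m') (hb : bad m t m') : Err (u ++ ([some t0] ++ (w1 ++ v))) := by
  refine ⟨u, t0, m, t, m', v, ?_, hb⟩
  rw [h]
  simp [tk]

theorem In_closed : ∀ r ∈ rl, ∀ w, Yl In r.output w → In r.input w := by
  intro r hr
  simp only [rl, List.mem_cons, List.not_mem_nil, or_false] at hr
  rcases hr with rfl | rfl | rfl | rfl | rfl | rfl | rfl | rfl | rfl | rfl | rfl | rfl | rfl |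
    rfl | rfl | rfl | rfl | rfl | rfl | rfl | rfl | rfl | rfl | rfl | rfl | rfl | rfl
  · rintro _ ⟨w1, _, rfl, h, rfl⟩
    left
    rw [List.append_nil]
    exact h
  · rintro _ ⟨u, _, rfl, _, _, _, rfl, ⟨t0, rfl⟩, w1, _, rfl, ⟨m, t, ht, h⟩, v, _, rfl, _, rfl⟩
    right
    rw [List.append_nil]
    refine err_of u h ?_
    rcases ht with rfl | rfl | rfl <;> exact le_refl (m + 1)
  · rintro _ ⟨u, _, rfl, _, _, _, rfl, ⟨t0, rfl⟩, w1, _, rfl, ⟨m, m', ht, h⟩, v, _, rfl, _, rfl⟩
    right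
    rw [List.append_nil]
    exact err_of u h ht
  · rintro _ ⟨u, _, rfl, _, _, _, rfl, ⟨t0, rfl⟩, w1, _, rfl, ⟨m, h⟩, v, _, rfl, _, rfl⟩
    right
    rw [List.append_nil]
    exact err_of u h (le_refl (2 * m + 2))
  · rintro _ ⟨_, rfl, _, _, rfl, ⟨m, rfl⟩, rfl⟩
    rw [List.append_nil]
    exact ⟨0, Mt.d 0 m⟩
  · rintro _ ⟨_, rfl, _, _, rfl, ⟨m, rfl⟩, u, _, rfl, ⟨k, hk⟩, _, rfl, _, _, rfl, ⟨m', rfl⟩, rfl⟩
    refine ⟨k, ?_⟩
    have := Mt.a k m m' u hk
    simpa [tk] using this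
  · rintro _ ⟨_, rfl, _, _, rfl, ⟨m1, rfl⟩, x, _, rfl, ⟨k1, h1⟩, _, rfl, _, _, rfl, ⟨m2, rfl⟩,
      u, _, rfl, ⟨k2, h2⟩, _, rfl, _, _, rfl, ⟨m3, rfl⟩, y, _, rfl, ⟨k3, h3⟩, _, rfl, _, _, rfl,
      ⟨m4, rfl⟩, rfl⟩
    refine ⟨k1 + k2 + k3 + 1, ?_⟩
    have := Mt.br (k1 + k2 + k3) m1 m2 m3 m4 x u y (h1.mono (by omega)) (h2.mono (by omega))
      (h3.mono (by omega))
    simpa [tk] using this
  · rintro _ rfl
    exact ⟨0, rfl⟩
  · rintro _ ⟨_, rfl, _, _, rfl, ⟨m, rfl⟩, rfl⟩
    exact ⟨m + 1, by rw [List.append_nil, blk_succ]⟩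
  · rintro _ _
    trivial
  · rintro _ _
    trivial
  · rintro _ _
    trivial
  · rintro _ ⟨_, rfl, rfl⟩
    exact ⟨_, rfl⟩
  · rintro _ ⟨_, rfl, rfl⟩
    exact ⟨_, rfl⟩
  · rintro _ ⟨_, rfl, rfl⟩
    exact ⟨_, rfl⟩
  · rintro _ ⟨_, rfl, rfl⟩
    exact ⟨_, rfl⟩
  · rintro _ ⟨_, rfl, rfl⟩
    exact ⟨_, rfl⟩
  · rintro _ ⟨_, rfl, _, _, rfl, ⟨m, t, ht, rfl⟩, _, rfl, rfl⟩
    refine ⟨m + 1, t, ht, ?_⟩
    rw [← blk_succ, List.append_assoc]
    simp [tk, blk_succ']
  · rintro _ ⟨_, rfl, _, rfl, rfl⟩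
    exact ⟨0, .a, by simp, rfl⟩
  · rintro _ ⟨_, rfl, _, rfl, rfl⟩
    exact ⟨0, .b, by simp, rfl⟩
  · rintro _ ⟨_, rfl, _, rfl, rfl⟩
    exact ⟨0, .d, by simp, rfl⟩
  · rintro _ ⟨_, rfl, _, rfl, _, _, rfl, ⟨m, m', hm, rfl⟩, _, rfl, rfl⟩
    refine ⟨m + 2, m' + 1, by omega, ?_⟩
    rw [← blk_succ, ← blk_succ, List.append_assoc]
    simp [tk, blk_succ']
  · rintro _ ⟨_, rfl, _, _, rfl, ⟨m, m', hm, rfl⟩, _, rfl, rfl⟩
    refine ⟨m + 1, m' + 1, by omega, ?_⟩
    rw [← blk_succ, List.append_assoc]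
    simp [tk, blk_succ']
  · rintro _ ⟨_, _, rfl, ⟨m, m', hm, rfl⟩, _, rfl, rfl⟩
    refine ⟨m, m' + 1, by omega, ?_⟩
    rw [List.append_assoc]
    simp [tk, blk_succ']
  · rintro _ ⟨_, rfl, rfl⟩
    exact ⟨0, 0, by omega, rfl⟩
  · rintro _ ⟨_, rfl, _, _, rfl, ⟨m, rfl⟩, _, rfl, _, rfl, rfl⟩
    refine ⟨m + 1, ?_⟩
    rw [← blk_succ, List.append_assoc]
    have : 2 * (m + 1) + 2 = 2 * m + 2 + 2 := by ring
    rw [this]
    simp [tk, ← blk_succ']
  · rintro _ ⟨_, rfl, _, rfl, _, rfl, rfl⟩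
    exact ⟨0, rfl⟩

/-- derivable words -/
def D (X : Nt) (w : List Sg) : Prop := Der gr X w

theorem D_of (X : Nt) (o : List (Symbol Sg Nt)) (hr : (⟨X, o⟩ : ContextFreeRule Sg Nt) ∈ rl)
    {w : List Sg} (h : Yl D o w) : D X w :=
  complete (g := gr) (r := ⟨X, o⟩) ((mem_gr _).2 hr) h

theorem der_C (m : ℕ) : D .C (blk m) := by
  induction m with
  | zero => exact D_of .C [] (by simp [rl]) rfl
  | succ m ih =>
    refine D_of .C [terminal none, nonterminal .C] (by simp [rl]) ?_
    exact ⟨blk m, rfl, blk m, [], by simp, ih, rfl⟩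

theorem der_T (t : Tok) : D .T [some t] := by
  cases t
  · exact D_of .T [terminal (some .a)] (by simp [rl]) ⟨_, rfl, rfl⟩
  · exact D_of .T [terminal (some .b)] (by simp [rl]) ⟨_, rfl, rfl⟩
  · exact D_of .T [terminal (some .d)] (by simp [rl]) ⟨_, rfl, rfl⟩
  · exact D_of .T [terminal (some .l)] (by simp [rl]) ⟨_, rfl, rfl⟩
  · exact D_of .T [terminal (some .r)] (by simp [rl]) ⟨_, rfl, rfl⟩

theorem der_A (w : List Sg) : D .A w := by
  induction w with
  | nil => exact D_of .A [] (by simp [rl]) rfl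
  | cons x w ih =>
    cases x with
    | none =>
      refine D_of .A [terminal none, nonterminal .A] (by simp [rl]) ?_
      exact ⟨_, rfl, _, [], by simp, ih, rfl⟩
    | some t =>
      refine D_of .A [nonterminal .T, nonterminal .A] (by simp [rl]) ?_
      exact ⟨[some t], w, rfl, der_T t, w, [], by simp, ih, rfl⟩

theorem der_S {k : ℕ} {w : List Sg} (h : Mt k w) : D .S w := by
  induction h with
  | d k m =>
    refine D_of .S [terminal (some .d), nonterminal .C] (by simp [rl]) ?_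
    exact ⟨_, rfl, _, [], by simp, der_C m, rfl⟩
  | a k m m' u _ ih =>
    refine D_of .S [terminal (some .a), nonterminal .C, nonterminal .S,
      terminal (some .b), nonterminal .C] (by simp [rl]) ?_
    exact ⟨_, rfl, blk m, _, rfl, der_C m, u, _, rfl, ih, _, rfl, _, [], by simp, der_C m', rfl⟩
  | br k m1 m2 m3 m4 x u y _ _ _ ih1 ih2 ih3 =>
    refine D_of .S [terminal (some .l), nonterminal .C, nonterminal .S,
      terminal (some .r), nonterminal .C, nonterminal .S, terminal (some .l), nonterminal .C,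
      nonterminal .S, terminal (some .r), nonterminal .C] (by simp [rl]) ?_
    exact ⟨_, rfl, blk m1, _, rfl, der_C m1, x, _, rfl, ih1, _, rfl, blk m2, _, rfl, der_C m2,
      u, _, rfl, ih2, _, rfl, blk m3, _, rfl, der_C m3, y, _, rfl, ih3, _, rfl, _, [], by simp,
      der_C m4, rfl⟩

theorem der_P (m : ℕ) (t : Tok) (ht : t = .a ∨ t = .b ∨ t = .d) :
    D .P (blk m ++ tk t (m + 1)) := by
  induction m with
  | zero =>
    rcases ht with rfl | rfl | rfl
    · exact D_of .P [terminal (some .a), terminal none] (by simp [rl]) ⟨_, rfl, _, rfl, rfl⟩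
    · exact D_of .P [terminal (some .b), terminal none] (by simp [rl]) ⟨_, rfl, _, rfl, rfl⟩
    · exact D_of .P [terminal (some .d), terminal none] (by simp [rl]) ⟨_, rfl, _, rfl, rfl⟩
  | succ m ih =>
    refine D_of .P [terminal none, nonterminal .P, terminal none] (by simp [rl]) ?_
    refine ⟨blk m ++ tk t (m + 1 + 1), by rw [← blk_succ, List.cons_append],
      blk m ++ tk t (m + 1), [none], ?_, ih, _, rfl, rfl⟩
    rw [tk, ← blk_succ']
    simp [tk]

theorem der_Q (m : ℕ) : D .Q (blk m ++ tk .r (2 * m + 2)) := by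
  induction m with
  | zero =>
    exact D_of .Q [terminal (some .r), terminal none, terminal none] (by simp [rl]) ⟨_, rfl, _, rfl, _, rfl, rfl⟩
  | succ m ih =>
    refine D_of .Q [terminal none, nonterminal .Q, terminal none, terminal none] (by simp [rl]) ?_
    refine ⟨blk m ++ tk .r (2 * (m + 1) + 2), by rw [← blk_succ, List.cons_append],
      blk m ++ tk .r (2 * m + 2), [none, none], ?_, ih, _, rfl, _, rfl, rfl⟩
    have : 2 * (m + 1) + 2 = 2 * m + 2 + 2 := by ring
    rw [this, tk, ← blk_succ', ← blk_succ']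
    simp [tk]

theorem der_B0 (m : ℕ) : D .B (blk 0 ++ tk .l m) := by
  induction m with
  | zero =>
    exact D_of .B [terminal (some .l)] (by simp [rl]) ⟨_, rfl, rfl⟩
  | succ m ih =>
    refine D_of .B [nonterminal .B, terminal none] (by simp [rl]) ?_
    refine ⟨blk 0 ++ tk .l m, [none], ?_, ih, _, rfl, rfl⟩
    rw [tk, ← blk_succ']
    simp [tk]

theorem der_B (m' : ℕ) : ∀ m : ℕ, m ≤ 2 * m' → D .B (blk m ++ tk .l m') := by
  induction m' with
  | zero =>
    intro m hm
    obtain rfl : m = 0 := by omega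
    exact der_B0 0
  | succ m' ih =>
    intro m hm
    rcases m with _ | _ | m
    · exact der_B0 _
    · refine D_of .B [terminal none, nonterminal .B, terminal none] (by simp [rl]) ?_
      refine ⟨blk 0 ++ tk .l (m' + 1), rfl, blk 0 ++ tk .l m', [none], ?_, ih 0 (by omega), _, rfl,
        rfl⟩
      rw [tk, ← blk_succ']
      simp [tk]
    · refine D_of .B [terminal none, terminal none, nonterminal .B, terminal none] (by simp [rl]) ?_
      refine ⟨blk (m + 1) ++ tk .l (m' + 1), by rw [← blk_succ, List.cons_append],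
        blk m ++ tk .l (m' + 1), by rw [← blk_succ, List.cons_append],
        blk m ++ tk .l m', [none], ?_, ih m (by omega), _, rfl, rfl⟩
      rw [tk, ← blk_succ']
      simp [tk]

theorem der_Z {w : List Sg} (h : Match w ∨ Err w) : D .Z w := by
  rcases h with ⟨k, h⟩ | ⟨u, t0, m, t, m', v, rfl, hb⟩
  · refine D_of .Z [nonterminal .S] (by simp [rl]) ?_
    exact ⟨w, [], by simp, der_S h, rfl⟩
  · have key : ∀ t, (t = .a ∨ t = .b ∨ t = .d) → m + 1 ≤ m' →
        D .Z (u ++ (tk t0 m ++ (tk t m' ++ v))) := by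
      intro t ht h
      refine D_of .Z [nonterminal .A, nonterminal .T, nonterminal .P,
        nonterminal .A] (by simp [rl]) ?_
      refine ⟨u, _, rfl, der_A u, [some t0], _, rfl, der_T t0, blk m ++ tk t (m + 1),
        blk (m' - (m + 1)) ++ v, ?_, der_P m t ht, blk (m' - (m + 1)) ++ v, [],
        (List.append_nil _).symm, der_A _, rfl⟩
      rw [← List.append_assoc, List.append_assoc (blk m), tk_append]
      have : m + 1 + (m' - (m + 1)) = m' := by omega
      rw [this, List.append_assoc]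
      rfl
    cases t with
    | a => exact key _ (by simp) hb
    | b => exact key _ (by simp) hb
    | d => exact key _ (by simp) hb
    | l =>
      refine D_of .Z [nonterminal .A, nonterminal .T, nonterminal .B,
        nonterminal .A] (by simp [rl]) ?_
      refine ⟨u, _, rfl, der_A u, [some t0], _, rfl, der_T t0, blk m ++ tk .l m',
        v, ?_, der_B m' m hb, v, [], (List.append_nil _).symm, der_A _, rfl⟩
      simp
    | r =>
      refine D_of .Z [nonterminal .A, nonterminal .T, nonterminal .Q,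
        nonterminal .A] (by simp [rl]) ?_
      have hb' : 2 * m + 2 ≤ m' := hb
      refine ⟨u, _, rfl, der_A u, [some t0], _, rfl, der_T t0, blk m ++ tk .r (2 * m + 2),
        blk (m' - (2 * m + 2)) ++ v, ?_, der_Q m, blk (m' - (2 * m + 2)) ++ v, [],
        (List.append_nil _).symm, der_A _, rfl⟩
      rw [← List.append_assoc, List.append_assoc (blk m), tk_append]
      have : 2 * m + 2 + (m' - (2 * m + 2)) = m' := by omega
      rw [this, List.append_assoc]
      rfl

theorem Lang_cf : Lang.IsContextFree := by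
  refine ⟨gr, ?_⟩
  ext w
  constructor
  · intro h
    have h1 := sound (g := gr) (I := In) (fun r hr w => In_closed r ((mem_gr r).1 hr) w) h
    obtain ⟨w1, w2, rfl, h2, h3⟩ := h1
    have : w2 = [] := h3
    rw [this, List.append_nil]
    exact h2
  · intro h
    exact der_Z h

end cf

end Pool.Agent.N614.QR
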