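import Mathlib
import Pool.Agent.Helper178.GramLfp
import Pool.Agent.N614.QR.Defs

set_option autoImplicit false

/-!
# Linear automata
-/

namespace Pool.Agent.N614.QR

/-- automata which generate words from both ends -/
structure LA (X : Type) where
  /-- the states -/
  Q : Type
  /-- there are finitely many -/
  finite : Finite Q
  /-- empty steps -/
  eps : Q → Q → Prop
  /-- steps which generate the first letter -/
  stL : Q → X → Q → Prop
  /-- steps which generate the last letter -/
  stR : Q → X → Q → Prop
  /-- final states -/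
  fin : Q → Prop
  /-- the initial state -/
  start : Q

/-- generated words -/
inductive LA.Gen {X : Type} (M : LA X) : M.Q → List X → Prop
  | fin {q : M.Q} : M.fin q → LA.Gen M q []
  | eps {q q' : M.Q} {w : List X} : M.eps q q' → LA.Gen M q' w → LA.Gen M q w
  | left {q q' : M.Q} {x : X} {w : List X} : M.stL q x q' → LA.Gen M q' w → LA.Gen M q (x :: w)
  | right {q q' : M.Q} {x : X} {w : List X} : M.stR q x q' → LA.Gen M q' w →
      LA.Gen M q (w ++ [x])

section grammar

open Symbol Pool.Agent.Helper178.Gram

variable {X : Type}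

/-- the states: the factors of the right-hand sides, and the initial symbol -/
def okSt (g : ContextFreeGrammar X) (s : List (Symbol X g.NT)) : Prop :=
  s = [nonterminal g.initial] ∨ ∃ r ∈ g.rules, s <:+: r.output

theorem okSt_finite (g : ContextFreeGrammar X) : {s | okSt g s}.Finite := by
  have h1 : {s | okSt g s} ⊆ {[nonterminal g.initial]} ∪
      ⋃ r ∈ (g.rules : Set (ContextFreeRule X g.NT)), {s | s <:+: r.output} := by
    rintro s (rfl | ⟨r, hr, hs⟩)
    · exact Or.inl rfl
    · exact Or.inr (Set.mem_biUnion hr hs)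
  refine Set.Finite.subset ?_ h1
  refine (Set.finite_singleton _).union (Set.Finite.biUnion (Finset.finite_toSet _) ?_)
  intro r _
  have h2 : {s | s <:+: r.output} ⊆ {s | s ∈ r.output.sublists} := by
    intro s hs
    simp only [Set.mem_setOf_eq, List.mem_sublists]
    exact List.IsInfix.sublist hs
  exact (List.finite_toSet _).subset h2

theorem okSt.tail {g : ContextFreeGrammar X} {a : Symbol X g.NT} {s : List (Symbol X g.NT)}
    (ha : ∃ x, a = terminal x) (h : okSt g (a :: s)) : okSt g s := by
  rcases h with h | ⟨r, hr, hs⟩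
  · obtain ⟨x, rfl⟩ := ha
    cases (List.cons.inj h).1
  · exact Or.inr ⟨r, hr, (List.suffix_cons a s).isInfix.trans hs⟩

theorem okSt.init {g : ContextFreeGrammar X} {a : Symbol X g.NT} {s : List (Symbol X g.NT)}
    (ha : ∃ x, a = terminal x) (h : okSt g (s ++ [a])) : okSt g s := by
  rcases h with h | ⟨r, hr, hs⟩
  · obtain ⟨x, rfl⟩ := ha
    exfalso
    have : terminal x ∈ ([nonterminal g.initial] : List (Symbol X g.NT)) := by
      rw [← h]; simp
    simp at this
  · exact Or.inr ⟨r, hr, (List.prefix_append s [a]).isInfix.trans hs⟩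

/-- the linear automaton of a linear grammar -/
def grLA (g : ContextFreeGrammar X) : LA X where
  Q := {s // okSt g s}
  finite := (okSt_finite g).to_subtype
  eps := fun s s' => ∃ r ∈ g.rules, s.1 = [nonterminal r.input] ∧ s'.1 = r.output
  stL := fun s x s' => s.1 = terminal x :: s'.1
  stR := fun s x s' => s.1 = s'.1 ++ [terminal x]
  fin := fun s => s.1 = []
  start := ⟨[nonterminal g.initial], Or.inl rfl⟩

theorem grLA_sound (g : ContextFreeGrammar X) {q : (grLA g).Q} {w : List X}
    (h : (grLA g).Gen q w) : g.Derives q.1 (w.map terminal) := by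
  induction h with
  | fin h =>
    have h' : _ = _ := h
    rw [h']
    exact Relation.ReflTransGen.refl
  | @eps q q' w h _ ih =>
    obtain ⟨r, hr, h1, h2⟩ := h
    rw [h1]
    rw [h2] at ih
    exact Relation.ReflTransGen.head ⟨r, hr, ContextFreeRule.Rewrites.input_output⟩ ih
  | @left q q' x w h _ ih =>
    have h' : q.1 = terminal x :: q'.1 := h
    rw [h']
    have := ih.append_left [terminal x]
    simpa using this
  | @right q q' x w h _ ih =>
    have h' : q.1 = q'.1 ++ [terminal x] := h
    rw [h']
    have := ContextFreeGrammar.Derives.append_right ih [terminal x]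
    simpa using this

/-- generation from words of terminals -/
theorem gen_term (g : ContextFreeGrammar X) : ∀ (u : List X) (q : (grLA g).Q),
    q.1 = u.map terminal → (grLA g).Gen q u := by
  intro u
  induction u with
  | nil => intro q h; exact LA.Gen.fin h
  | cons x u ih =>
    intro q h
    obtain ⟨s, hs⟩ := q
    have h' : s = terminal x :: u.map terminal := h
    subst h'
    exact LA.Gen.left (M := grLA g) (q := ⟨_, hs⟩) (q' := ⟨_, hs.tail ⟨x, rfl⟩⟩) rfl (ih _ rfl)

theorem gen_right (g : ContextFreeGrammar X) (A : g.NT) (w : List X)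
    (hA : ∀ q : (grLA g).Q, q.1 = [nonterminal A] → (grLA g).Gen q w) : ∀ (v : List X)
    (q : (grLA g).Q), q.1 = nonterminal A :: v.map terminal → (grLA g).Gen q (w ++ v) := by
  intro v
  induction v using List.reverseRecOn with
  | nil => intro q h; rw [List.append_nil]; exact hA q h
  | append_singleton v x ih =>
    intro q h
    obtain ⟨s, hs⟩ := q
    have h' : s = (nonterminal A :: v.map terminal) ++ [terminal x] := by
      rw [show s = _ from h]; simp
    subst h'
    rw [← List.append_assoc]
    exact LA.Gen.right (M := grLA g) (q := ⟨_, hs⟩) (q' := ⟨_, hs.init ⟨x, rfl⟩⟩) rfl (ih _ rfl)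

theorem gen_left (g : ContextFreeGrammar X) (A : g.NT) (w : List X)
    (hA : ∀ q : (grLA g).Q, q.1 = [nonterminal A] → (grLA g).Gen q w) (v : List X) :
    ∀ (u : List X) (q : (grLA g).Q), q.1 = u.map terminal ++ nonterminal A :: v.map terminal →
      (grLA g).Gen q (u ++ (w ++ v)) := by
  intro u
  induction u with
  | nil => intro q h; exact gen_right g A w hA v q h
  | cons x u ih =>
    intro q h
    obtain ⟨s, hs⟩ := q
    have h' : s = terminal x :: (u.map terminal ++ nonterminal A :: v.map terminal) := h
    subst h'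
    exact LA.Gen.left (M := grLA g) (q := ⟨_, hs⟩) (q' := ⟨_, hs.tail ⟨x, rfl⟩⟩) rfl (ih _ rfl)

/-- the shape of a right-hand side -/
theorem shape {N : Type} : ∀ (s : List (Symbol X N)),
    (∀ (a b c : List (Symbol X N)) (A B : N), s ≠ a ++ nonterminal A :: (b ++ nonterminal B :: c)) →
    (∃ u : List X, s = u.map terminal) ∨
      ∃ (u v : List X) (A : N), s = u.map terminal ++ nonterminal A :: v.map terminal := by
  intro s
  induction s with
  | nil => intro _; exact Or.inl ⟨[], rfl⟩
  | cons a s ih =>
    intro h
    have h' := ih (fun a' b c A B e => h (a :: a') b c A B (by rw [e]; rfl))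
    cases a with
    | terminal x =>
      rcases h' with ⟨u, rfl⟩ | ⟨u, v, A, rfl⟩
      · exact Or.inl ⟨x :: u, rfl⟩
      · exact Or.inr ⟨x :: u, v, A, rfl⟩
    | nonterminal A =>
      rcases h' with ⟨u, rfl⟩ | ⟨u, v, B, rfl⟩
      · exact Or.inr ⟨[], u, A, rfl⟩
      · exact absurd rfl (h [] (u.map terminal) (v.map terminal) A B)

theorem Yl_term {N : Type} {I : N → List X → Prop} : ∀ (u w : List X),
    Yl I (u.map terminal) w → w = u := by
  intro u
  induction u with
  | nil => intro w h; exact h
  | cons x u ih =>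
    rintro _ ⟨w', rfl, h⟩
    rw [ih w' h]

theorem linear_LA {L : Language X} (h : IsLinear L) : ∃ M : LA X, ∀ w, w ∈ L ↔ M.Gen M.start w := by
  obtain ⟨g, hg, rfl⟩ := h
  refine ⟨grLA g, fun w => ⟨fun hw => ?_, fun hw => grLA_sound g hw⟩⟩
  have h1 := sound (g := g)
    (I := fun A w => ∀ q : (grLA g).Q, q.1 = [nonterminal A] → (grLA g).Gen q w) (by
      intro r hr w hw q hq
      have hok : okSt g r.output := Or.inr ⟨r, hr, List.infix_refl _⟩
      have h2 : (grLA g).Gen ⟨r.output, hok⟩ w := by
        rcases shape r.output (hg r hr) with ⟨u, hu⟩ | ⟨u, v, A, hu⟩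
        · rw [hu] at hw
          rw [Yl_term u w hw]
          exact gen_term g u _ hu
        · rw [hu] at hw
          obtain ⟨w1, w2, rfl, hw1, hw2⟩ := (Yl_append _ _ _).1 hw
          obtain ⟨w3, w4, rfl, hw3, hw4⟩ := hw2
          rw [Yl_term u w1 hw1, Yl_term v w4 hw4]
          exact gen_left g A w3 hw3 v u _ hu
      exact LA.Gen.eps (M := grLA g) ⟨r, hr, hq, rfl⟩ h2) hw
  obtain ⟨w1, w2, rfl, h2, h3⟩ := h1
  have : w2 = [] := h3
  rw [this, List.append_nil]
  exact h2 _ rfl

end grammar

end Pool.Agent.N614.QR
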