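import Mathlib

set_option autoImplicit false

/-!
# Paths in finite labelled graphs
-/

namespace Pool.Agent.N614.QR

section paths

variable {V A : Type}

/-- `Path G p u q n`: there is a path with `n` edges from `p` to `q` which reads `u` -/
inductive Path (G : V → Option A → V → Prop) : V → List A → V → ℕ → Prop
  | nil (p : V) : Path G p [] p 0
  | cons {p q r : V} {x : Option A} {u : List A} {n : ℕ} :
      G p x q → Path G q u r n → Path G p (x.toList ++ u) r (n + 1)

/-- paths with the list of all visited vertices -/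
inductive VPath (G : V → Option A → V → Prop) : V → List A → V → List V → Prop
  | nil (p : V) : VPath G p [] p [p]
  | cons {p q r : V} {x : Option A} {u : List A} {l : List V} :
      G p x q → VPath G q u r l → VPath G p (x.toList ++ u) r (p :: l)

variable {G : V → Option A → V → Prop}

theorem Path.app {p q r : V} {u v : List A} {n m : ℕ} (h1 : Path G p u q n)
    (h2 : Path G q v r m) : Path G p (u ++ v) r (n + m) := by
  induction h1 with
  | nil p => simpa using h2
  | @cons p q r' x u n hs _ ih =>
    have := Path.cons hs (ih h2)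
    rw [List.append_assoc]
    have e : n + 1 + m = n + m + 1 := by omega
    rw [e]
    exact this

theorem Path.length_le {p q : V} {u : List A} {n : ℕ} (h : Path G p u q n) : u.length ≤ n := by
  induction h with
  | nil p => simp
  | @cons p q r x u n hs _ ih =>
    rw [List.length_append]
    have : x.toList.length ≤ 1 := by cases x <;> simp
    omega

theorem Path.single {p q : V} {x : A} (h : G p (some x) q) : Path G p [x] q 1 :=
  Path.cons (x := some x) h (Path.nil q)

/-- decomposition after the first letter -/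
theorem Path.cons_inv {p q : V} {w : List A} {n : ℕ} (h : Path G p w q n) :
    ∀ {x : A} {u : List A}, w = x :: u →
      ∃ p1 p2 n1 n2, Path G p [] p1 n1 ∧ G p1 (some x) p2 ∧ Path G p2 u q n2 := by
  induction h with
  | nil p => intro x u h; cases h
  | @cons p q' r y u' n hs hr ih =>
    intro x u h
    cases y with
    | none =>
      obtain ⟨p1, p2, n1, n2, h1, h2, h3⟩ := ih h
      exact ⟨p1, p2, n1 + 1, n2, Path.cons (x := none) hs h1, h2, h3⟩
    | some y =>
      have h' : y :: u' = x :: u := h
      obtain ⟨rfl, rfl⟩ := List.cons.inj h'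
      exact ⟨p, q', 0, n, Path.nil p, hs, hr⟩

theorem Path.app_inv {q : V} {v : List A} : ∀ (u : List A) {p : V} {n : ℕ},
    Path G p (u ++ v) q n → ∃ s n1 n2, Path G p u s n1 ∧ Path G s v q n2 := by
  intro u
  induction u with
  | nil => intro p n h; exact ⟨p, 0, n, Path.nil p, h⟩
  | cons x u ih =>
    intro p n h
    obtain ⟨p1, p2, n1, n2, h1, h2, h3⟩ := h.cons_inv (x := x) (u := u ++ v) rfl
    obtain ⟨s, n3, n4, h4, h5⟩ := ih h3
    refine ⟨s, n1 + (n3 + 1), n4, ?_, h5⟩
    exact h1.app (Path.cons (x := some x) h2 h4)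

theorem VPath.suffix {q r : V} {u : List A} {l : List V} (h : VPath G q u r l) {p : V}
    (hp : p ∈ l) : ∃ u' l', u'.Sublist u ∧ l' <:+ l ∧ VPath G p u' r l' := by
  induction h with
  | nil s =>
    obtain rfl : p = s := by simpa using hp
    exact ⟨[], [p], List.Sublist.refl _, List.suffix_refl _, VPath.nil p⟩
  | @cons s q r x u l hs hr ih =>
    rcases List.mem_cons.1 hp with rfl | hp
    · exact ⟨_, _, List.Sublist.refl _, List.suffix_refl _, VPath.cons hs hr⟩
    · obtain ⟨u', l', h1, h2, h3⟩ := ih hp
      exact ⟨u', l', h1.trans (List.sublist_append_right _ _), h2.trans (List.suffix_cons _ _), h3⟩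

theorem Path.simple {p q : V} {u : List A} {n : ℕ} (h : Path G p u q n) :
    ∃ u' l, u'.Sublist u ∧ l.Nodup ∧ VPath G p u' q l := by
  induction h with
  | nil p => exact ⟨[], [p], List.Sublist.refl _, List.nodup_singleton p, VPath.nil p⟩
  | @cons p q r x u n hs _ ih =>
    obtain ⟨u', l, h1, h2, h3⟩ := ih
    by_cases hp : p ∈ l
    · obtain ⟨u'', l', h4, h5, h6⟩ := h3.suffix hp
      exact ⟨u'', l', (h4.trans h1).trans (List.sublist_append_right _ _),
        h2.sublist h5.sublist, h6⟩
    · exact ⟨x.toList ++ u', p :: l, List.Sublist.append (List.Sublist.refl _) h1,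
        List.nodup_cons.2 ⟨hp, h2⟩, VPath.cons hs h3⟩

theorem VPath.path {p q : V} {u : List A} {l : List V} (h : VPath G p u q l) :
    ∃ n, n + 1 = l.length ∧ Path G p u q n := by
  induction h with
  | nil p => exact ⟨0, rfl, Path.nil p⟩
  | @cons p q r x u l hs _ ih =>
    obtain ⟨n, h1, h2⟩ := ih
    exact ⟨n + 1, by simp [h1], Path.cons hs h2⟩

variable [Fintype V]

/-- cutting all cycles -/
theorem Path.cut {p q : V} {u : List A} {n : ℕ} (h : Path G p u q n) :
    ∃ u' n', u'.Sublist u ∧ n' + 1 ≤ Fintype.card V ∧ Path G p u' q n' := by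
  obtain ⟨u', l, h1, h2, h3⟩ := h.simple
  obtain ⟨n', h4, h5⟩ := h3.path
  exact ⟨u', n', h1, by rw [h4]; exact h2.length_le_card, h5⟩

/-- short path which reads the same word -/
theorem Path.same {q : V} (u : List A) : ∀ {p : V} {n : ℕ}, Path G p u q n →
    ∃ n', n' + 1 ≤ (u.length + 1) * Fintype.card V ∧ Path G p u q n' := by
  induction u with
  | nil =>
    intro p n h
    obtain ⟨u', n', h1, h2, h3⟩ := h.cut
    obtain rfl : u' = [] := List.sublist_nil.1 h1
    exact ⟨n', by simpa using h2, h3⟩
  | cons x u ih =>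
    intro p n h
    obtain ⟨p1, p2, n1, n2, h1, h2, h3⟩ := h.cons_inv (x := x) (u := u) rfl
    obtain ⟨n3, h4, h5⟩ := ih h3
    obtain ⟨u', n4, h6, h7, h8⟩ := h1.cut
    obtain rfl : u' = [] := List.sublist_nil.1 h6
    refine ⟨n4 + (n3 + 1), ?_, h8.app (Path.cons (x := some x) h2 h5)⟩
    have e : ((x :: u).length + 1) * Fintype.card V
        = (u.length + 1) * Fintype.card V + Fintype.card V := by
      rw [List.length_cons]; ring
    omega

end paths

section pump

variable {V A : Type} {G : V → Option A → V → Prop}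

/-- the intermediate states of a path which reads a power of a letter -/
theorem Path.chain {q : V} {c : A} (m : ℕ) : ∀ {p : V} {n : ℕ},
    Path G p (List.replicate m c) q n →
    ∃ st : ℕ → V, st 0 = p ∧ (∃ n', Path G (st m) [] q n') ∧
      ∀ i < m, ∃ n', Path G (st i) [c] (st (i + 1)) n' := by
  induction m with
  | zero =>
    intro p n h
    exact ⟨fun _ => p, rfl, ⟨n, h⟩, fun i hi => absurd hi (Nat.not_lt_zero i)⟩
  | succ m ih =>
    intro p n h
    obtain ⟨s, n1, n2, h1, h2⟩ := Path.app_inv [c] (v := List.replicate m c)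
      (by simpa [List.replicate_succ] using h)
    obtain ⟨st, h3, h4, h5⟩ := ih h2
    refine ⟨fun i => Nat.casesOn i p st, rfl, h4, ?_⟩
    intro i hi
    cases i with
    | zero =>
      refine ⟨n1, ?_⟩
      show Path G p [c] (st 0) n1
      rw [h3]
      exact h1
    | succ i => exact h5 i (by omega)

theorem Path.seg {c : A} {st : ℕ → V} {m : ℕ}
    (h : ∀ i < m, ∃ n', Path G (st i) [c] (st (i + 1)) n') (i : ℕ) :
    ∀ d, i + d ≤ m → ∃ n, Path G (st i) (List.replicate d c) (st (i + d)) n := by
  intro d
  induction d with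
  | zero => intro _; exact ⟨0, Path.nil _⟩
  | succ d ih =>
    intro hd
    obtain ⟨n1, h1⟩ := ih (by omega)
    obtain ⟨n2, h2⟩ := h (i + d) (by omega)
    refine ⟨n1 + n2, ?_⟩
    rw [List.replicate_succ']
    exact h1.app h2

theorem Path.cycle {c : A} {s : V} {d n : ℕ} (h : Path G s (List.replicate d c) s n) (t : ℕ) :
    ∃ n', Path G s (List.replicate (d * t) c) s n' := by
  induction t with
  | zero => exact ⟨0, Path.nil _⟩
  | succ t ih =>
    obtain ⟨n', h'⟩ := ih
    refine ⟨n' + n, ?_⟩
    rw [Nat.mul_succ, ← List.replicate_append_replicate]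
    exact h'.app h

/-- pumping a long block -/
theorem Path.pump [Fintype V] {p q : V} {c : A} {m n : ℕ}
    (h : Path G p (List.replicate m c) q n) (hm : Fintype.card V ≤ m) (M : ℕ) :
    ∃ m' n', M ≤ m' ∧ Path G p (List.replicate m' c) q n' := by
  obtain ⟨st, h1, ⟨n1, h2⟩, h3⟩ := Path.chain m h
  obtain ⟨i, j, hij, hst⟩ := Fintype.exists_ne_map_eq_of_card_lt (fun i : Fin (m + 1) => st i)
    (by rw [Fintype.card_fin]; omega)
  wlog hlt : (i : ℕ) < j generalizing i j
  · refine this j i (Ne.symm hij) hst.symm ?_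
    have : (i : ℕ) ≠ j := fun e => hij (Fin.ext e)
    omega
  have hj := j.2
  obtain ⟨n2, h4⟩ := Path.seg h3 0 i (by omega)
  obtain ⟨n3, h5⟩ := Path.seg h3 i (j - i) (by omega)
  obtain ⟨n4, h6⟩ := Path.seg h3 j (m - j) (by omega)
  rw [Nat.zero_add, h1] at h4
  have e1 : (i : ℕ) + (j - i) = j := by omega
  have e2 : (j : ℕ) + (m - j) = m := by omega
  rw [e1] at h5
  rw [e2] at h6
  have hst' : st i = st j := hst
  rw [← hst'] at h5 h6
  obtain ⟨n5, h7⟩ := Path.cycle h5 M
  refine ⟨i + ((j - i) * M + (m - j)), n2 + (n5 + (n4 + n1)), ?_, ?_⟩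
  · have : 1 * M ≤ (j - i) * M := Nat.mul_le_mul_right M (by omega)
    omega
  · rw [← List.replicate_append_replicate, ← List.replicate_append_replicate]
    have h8 := h6.app h2
    rw [List.append_nil] at h8
    exact h4.app (h7.app h8)

end pump

end Pool.Agent.N614.QR
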