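import Mathlib
import Pool.Agent.N614.QR.Lang
import Pool.Agent.N614.QR.Paths

set_option autoImplicit false

/-!
# Short paths: if some path in a finite graph reads a word of the language, then a short one does
-/

namespace Pool.Agent.N614.QR

theorem blk_length (m : ℕ) : (blk m).length = m := by simp [blk]

theorem sublist_blk {u : List Sg} {m : ℕ} (h : u.Sublist (blk m)) : ∃ m', m' ≤ m ∧ u = blk m' := by
  refine ⟨u.length, ?_, ?_⟩
  · have := h.length_le
    rwa [blk_length] at this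
  · rw [blk, List.eq_replicate_iff]
    refine ⟨rfl, fun b hb => ?_⟩
    have := h.subset hb
    exact List.eq_of_mem_replicate this

/-- the least bad length of a block -/
def thr (m : ℕ) : Tok → ℕ
  | .l => (m + 1) / 2
  | .r => 2 * m + 2
  | .a => m + 1
  | .b => m + 1
  | .d => m + 1

theorem bad_iff (m : ℕ) (t : Tok) (m' : ℕ) : bad m t m' ↔ thr m t ≤ m' := by
  cases t
  · exact Iff.rfl
  · exact Iff.rfl
  · exact Iff.rfl
  · show m ≤ 2 * m' ↔ (m + 1) / 2 ≤ m'
    omega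
  · exact Iff.rfl

theorem thr_le (m : ℕ) (t : Tok) : thr m t ≤ 2 * m + 2 := by
  cases t <;> simp only [thr] <;> omega

theorem thr_mono {m m1 : ℕ} (h : m1 ≤ m) (t : Tok) : thr m1 t ≤ thr m t := by
  cases t <;> simp only [thr] <;> omega

section err

variable {V : Type} [Fintype V] {G : V → Option Sg → V → Prop}

/-- short paths for words with an error -/
theorem short_err {P Q : V} {z : List Sg} {n : ℕ} (h : Path G P z Q n) (hz : Err z) :
    ∃ z' n', Err z' ∧ Path G P z' Q n' ∧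
      n' ≤ 2 * Fintype.card V ^ 2 + 7 * Fintype.card V := by
  obtain ⟨u, t0, m, t, m', v, rfl, hb⟩ := hz
  rw [bad_iff] at hb
  obtain ⟨s1, n1, n1', h1, h1'⟩ := Path.app_inv u h
  obtain ⟨s2, n2, n2', h2, h2'⟩ := Path.app_inv [some t0] (v := blk m ++ (tk t m' ++ v)) (by
    simpa [tk] using h1')
  obtain ⟨s3, n3, n3', h3, h3'⟩ := Path.app_inv (blk m) h2'
  obtain ⟨u1, k1, _, e1, f1⟩ := h1.cut
  obtain ⟨k2, e2, f2⟩ := Path.same [some t0] h2
  obtain ⟨u3, k3, g3, e3, f3⟩ := h3.cut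
  obtain ⟨m1, hm1, rfl⟩ := sublist_blk g3
  have hm1' : m1 ≤ m := hm1
  -- the new block
  have hle : thr m1 t ≤ m' := le_trans (thr_mono hm1 t) hb
  have hsplit : tk t m' ++ v = tk t (thr m1 t) ++ (blk (m' - thr m1 t) ++ v) := by
    rw [← List.append_assoc, tk_append]
    congr 2
    omega
  rw [hsplit] at h3'
  obtain ⟨s4, n4, n4', h4, h4'⟩ := Path.app_inv (tk t (thr m1 t)) h3'
  obtain ⟨k4, e4, f4⟩ := Path.same (tk t (thr m1 t)) h4
  obtain ⟨v5, k5, _, e5, f5⟩ := h4'.cut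
  have hl : m1 ≤ k3 := by
    have := f3.length_le
    rwa [blk_length] at this
  have hlen : (tk t (thr m1 t)).length = thr m1 t + 1 := by simp [tk, blk_length]
  have hthr := thr_le m1 t
  refine ⟨u1 ++ (tk t0 m1 ++ (tk t (thr m1 t) ++ v5)), k1 + (k2 + (k3 + (k4 + k5))),
    ⟨u1, t0, m1, t, thr m1 t, v5, rfl, (bad_iff _ _ _).2 le_rfl⟩, ?_, ?_⟩
  · refine f1.app ?_
    have : tk t0 m1 ++ (tk t (thr m1 t) ++ v5)
        = [some t0] ++ (blk m1 ++ (tk t (thr m1 t) ++ v5)) := by simp [tk]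
    rw [this]
    exact f2.app (f3.app (f4.app f5))
  · rw [hlen] at e4
    simp only [List.length_cons, List.length_nil] at e2
    generalize Fintype.card V = N at *
    have h5 : (thr m1 t + 1 + 1) * N ≤ (2 * N + 2) * N := Nat.mul_le_mul_right N (by omega)
    have h6 : (2 * N + 2) * N = 2 * N ^ 2 + 2 * N := by ring
    omega

/-- without errors on paths from `P` to `Q`, all blocks but the first one are short -/
theorem blocks_lt {P Q : V} (hE : ∀ z n, Path G P z Q n → ¬ Err z) {u : List Sg} {t0 : Tok}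
    {m : ℕ} {t : Tok} {m' : ℕ} {v : List Sg} {n : ℕ}
    (h : Path G P (u ++ (tk t0 m ++ (tk t m' ++ v))) Q n) : m' < Fintype.card V := by
  by_contra hm
  push Not at hm
  have e : u ++ (tk t0 m ++ (tk t m' ++ v)) = (u ++ (tk t0 m ++ [some t])) ++ (blk m' ++ v) := by
    simp [tk]
  rw [e] at h
  obtain ⟨s1, n1, n1', h1, h1'⟩ := Path.app_inv (u ++ (tk t0 m ++ [some t])) h
  obtain ⟨s2, n2, n2', h2, h2'⟩ := Path.app_inv (blk m') h1'
  obtain ⟨m2, n3, h3, h4⟩ := Path.pump h2 hm (2 * m + 2)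
  have h5 := h1.app (h4.app h2')
  refine hE _ _ h5 ⟨u, t0, m, t, m2, v, ?_, (bad_iff _ _ _).2 ((thr_le m t).trans h3)⟩
  simp [tk, blk]

end err

section depth

/-- the level of a block -/
def lg (m : ℕ) : ℕ := Nat.log 2 (m + 1)

theorem lg_mono {m m' : ℕ} (h : m ≤ m') : lg m ≤ lg m' := Nat.log_mono_right (by omega)

theorem lg_succ {m m' : ℕ} (h : 2 * m + 1 ≤ m') : lg m + 1 ≤ lg m' := by
  have h1 : lg m + 1 = Nat.log 2 ((m + 1) * 2) := by
    rw [lg, Nat.log_mul_base (by norm_num) (by omega)]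
  rw [h1]
  exact Nat.log_mono_right (by omega)

/-- depth and last block of a matching word after a block of length `m` -/
theorem ctx {k : ℕ} {x : List Sg} (h : Mt k x) : ∀ {z U V : List Sg} {t0 : Tok} {m : ℕ},
    ¬ Err z → z = U ++ (tk t0 m ++ (x ++ V)) →
      Mt (lg m) x ∧ ∃ x0 t1 e, x = x0 ++ tk t1 e ∧ e ≤ m := by
  induction h with
  | d k m' =>
    intro z U V t0 m hz e
    refine ⟨Mt.d _ _, [], .d, m', rfl, ?_⟩
    by_contra hc
    exact hz ⟨U, t0, m, .d, m', V, e, by show m + 1 ≤ m'; omega⟩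
  | a k m1 m2 u _ ih =>
    intro z U V t0 m hz e
    have h1 : m1 ≤ m := by
      by_contra hc
      refine hz ⟨U, t0, m, .a, m1, u ++ tk .b m2 ++ V, ?_, by show m + 1 ≤ m1; omega⟩
      rw [e]; simp only [List.append_assoc]
    obtain ⟨h2, x0, t1, e1, rfl, he1⟩ := ih (U := U ++ tk t0 m) (t0 := .a) (m := m1)
      (V := tk .b m2 ++ V) hz (by rw [e]; simp only [List.append_assoc])
    have h3 : m2 ≤ e1 := by
      by_contra hc
      refine hz ⟨U ++ (tk t0 m ++ (tk .a m1 ++ x0)), t1, e1, .b, m2, V, ?_,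
        by show e1 + 1 ≤ m2; omega⟩
      rw [e]; simp only [List.append_assoc]
    refine ⟨Mt.a _ _ _ _ (h2.mono (lg_mono h1)), tk .a m1 ++ (x0 ++ tk t1 e1), .b, m2, ?_,
      by omega⟩
    simp only [List.append_assoc]
  | br k m1 m2 m3 m4 x u y _ _ _ ih1 ih2 ih3 =>
    intro z U V t0 m hz e
    have h1 : 2 * m1 + 1 ≤ m := by
      by_contra hc
      refine hz ⟨U, t0, m, .l, m1, x ++ (tk .r m2 ++ (u ++ (tk .l m3 ++ (y ++ tk .r m4)))) ++ V,
        ?_, by show m ≤ 2 * m1; omega⟩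
      rw [e]; simp only [List.append_assoc]
    obtain ⟨h2, x0, t1, e1, hx, he1⟩ := ih1 (U := U ++ tk t0 m) (t0 := .l) (m := m1)
      (V := tk .r m2 ++ (u ++ (tk .l m3 ++ (y ++ tk .r m4))) ++ V) hz
      (by rw [e]; simp only [List.append_assoc])
    have h3 : m2 ≤ 2 * e1 + 1 := by
      by_contra hc
      refine hz ⟨U ++ (tk t0 m ++ (tk .l m1 ++ x0)), t1, e1, .r, m2,
        u ++ (tk .l m3 ++ (y ++ tk .r m4)) ++ V, ?_, by show 2 * e1 + 2 ≤ m2; omega⟩
      rw [e, hx]; simp only [List.append_assoc]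
    obtain ⟨h4, u0, t2, e2, hu, he2⟩ := ih2 (U := U ++ (tk t0 m ++ (tk .l m1 ++ x)))
      (t0 := .r) (m := m2) (V := tk .l m3 ++ (y ++ tk .r m4) ++ V) hz
      (by rw [e]; simp only [List.append_assoc])
    have h5 : 2 * m3 + 1 ≤ e2 := by
      by_contra hc
      refine hz ⟨U ++ (tk t0 m ++ (tk .l m1 ++ (x ++ (tk .r m2 ++ u0)))), t2, e2, .l, m3,
        y ++ tk .r m4 ++ V, ?_, by show e2 ≤ 2 * m3; omega⟩
      rw [e, hu]; simp only [List.append_assoc]
    obtain ⟨h6, y0, t3, e3, hy, he3⟩ := ih3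
      (U := U ++ (tk t0 m ++ (tk .l m1 ++ (x ++ (tk .r m2 ++ u)))))
      (t0 := .l) (m := m3) (V := tk .r m4 ++ V) hz
      (by rw [e]; simp only [List.append_assoc])
    have h7 : m4 ≤ 2 * e3 + 1 := by
      by_contra hc
      refine hz ⟨U ++ (tk t0 m ++ (tk .l m1 ++ (x ++ (tk .r m2 ++ (u ++ (tk .l m3 ++ y0)))))),
        t3, e3, .r, m4, V, ?_, by show 2 * e3 + 2 ≤ m4; omega⟩
      rw [e, hy]; simp only [List.append_assoc]
    obtain ⟨K, hK⟩ : ∃ K, lg m = K + 1 := ⟨lg m - 1, by have := lg_succ h1; omega⟩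
    have g1 := lg_succ h1
    have g2 : lg m2 ≤ lg m := lg_mono (by omega)
    have g3 : lg m3 + 1 ≤ lg m := lg_succ (by omega)
    rw [hK] at g1 g2 g3 ⊢
    refine ⟨Mt.br K m1 m2 m3 m4 x u y (h2.mono (by omega)) (h4.mono g2) (h6.mono (by omega)),
      tk .l m1 ++ (x ++ (tk .r m2 ++ (u ++ (tk .l m3 ++ y)))), .r, m4, ?_, by omega⟩
    simp only [List.append_assoc]

/-- depth of a matching word all of whose blocks are short -/
theorem depthB {k : ℕ} {x : List Sg} (h : Mt k x) {z U V : List Sg} {N : ℕ} (hz : ¬ Err z)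
    (e : z = U ++ (x ++ V))
    (hN : ∀ x1 t m x2, x = x1 ++ (tk t m ++ x2) → m ≤ N) : Mt (lg N + 1) x := by
  cases h with
  | d k m' => exact Mt.d _ _
  | a k m1 m2 u hu =>
    have h1 : m1 ≤ N := hN [] .a m1 (u ++ tk .b m2) rfl
    obtain ⟨h2, -⟩ := ctx hu (U := U) (t0 := .a) (m := m1)
      (V := tk .b m2 ++ V) hz (by rw [e]; simp only [List.append_assoc])
    exact Mt.a _ _ _ _ (h2.mono (le_trans (lg_mono h1) (Nat.le_succ _)))
  | br k m1 m2 m3 m4 x u y hx hu hy =>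
    have h1 : m1 ≤ N := hN [] .l m1 _ rfl
    have h2 : m2 ≤ N := hN (tk .l m1 ++ x) .r m2 (u ++ (tk .l m3 ++ (y ++ tk .r m4)))
      (by simp only [List.append_assoc])
    have h3 : m3 ≤ N := hN (tk .l m1 ++ (x ++ (tk .r m2 ++ u))) .l m3 (y ++ tk .r m4)
      (by simp only [List.append_assoc])
    obtain ⟨g1, -⟩ := ctx hx (U := U) (t0 := .l) (m := m1)
      (V := tk .r m2 ++ (u ++ (tk .l m3 ++ (y ++ tk .r m4))) ++ V) hz
      (by rw [e]; simp only [List.append_assoc])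
    obtain ⟨g2, -⟩ := ctx hu (U := U ++ (tk .l m1 ++ x)) (t0 := .r) (m := m2)
      (V := tk .l m3 ++ (y ++ tk .r m4) ++ V) hz
      (by rw [e]; simp only [List.append_assoc])
    obtain ⟨g3, -⟩ := ctx hy (U := U ++ (tk .l m1 ++ (x ++ (tk .r m2 ++ u)))) (t0 := .l)
      (m := m3) (V := tk .r m4 ++ V) hz
      (by rw [e]; simp only [List.append_assoc])
    exact Mt.br _ _ _ _ _ _ _ _ (g1.mono (lg_mono h1))
      (g2.mono (le_trans (lg_mono h2) (Nat.le_succ _))) (g3.mono (lg_mono h3))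

/-- depth of a matching word all of whose blocks but the first one are short -/
theorem depthC {k : ℕ} {x : List Sg} (h : Mt k x) {N : ℕ} (hz : ¬ Err x)
    (hN : ∀ x1 t m x2, x1 ≠ [] → x = x1 ++ (tk t m ++ x2) → m ≤ N) : Mt (lg N + 2) x := by
  cases h with
  | d k m' => exact Mt.d _ _
  | a k m1 m2 u hu =>
    have := depthB hu (U := tk .a m1) (V := tk .b m2) (N := N) hz rfl (by
      intro x1 t m x2 hx
      refine hN (tk .a m1 ++ x1) t m (x2 ++ tk .b m2) (by simp [tk]) ?_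
      rw [hx]; simp only [List.append_assoc])
    exact Mt.a _ _ _ _ (this.mono (Nat.le_succ _))
  | br k m1 m2 m3 m4 x u y hx hu hy =>
    have h2 : m2 ≤ N := hN (tk .l m1 ++ x) .r m2 (u ++ (tk .l m3 ++ (y ++ tk .r m4)))
      (by simp [tk]) (by simp only [List.append_assoc])
    have h3 : m3 ≤ N := hN (tk .l m1 ++ (x ++ (tk .r m2 ++ u))) .l m3 (y ++ tk .r m4)
      (by simp [tk]) (by simp only [List.append_assoc])
    have g1 := depthB hx (U := tk .l m1) (N := N)
      (V := tk .r m2 ++ (u ++ (tk .l m3 ++ (y ++ tk .r m4)))) hz rfl (by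
      intro x1 t m x2 hx
      refine hN (tk .l m1 ++ x1) t m
        (x2 ++ (tk .r m2 ++ (u ++ (tk .l m3 ++ (y ++ tk .r m4))))) (by simp [tk]) ?_
      rw [hx]; simp only [List.append_assoc])
    obtain ⟨g2, -⟩ := ctx hu (U := (tk .l m1 ++ x)) (t0 := .r) (m := m2)
      (V := tk .l m3 ++ (y ++ tk .r m4)) hz
      (by simp only [List.append_assoc])
    obtain ⟨g3, -⟩ := ctx hy (U := (tk .l m1 ++ (x ++ (tk .r m2 ++ u)))) (t0 := .l)
      (m := m3) (V := tk .r m4) hz
      (by simp only [List.append_assoc])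
    exact Mt.br _ _ _ _ _ _ _ _ g1
      (g2.mono (le_trans (lg_mono h2) (by omega))) (g3.mono (le_trans (lg_mono h3) (Nat.le_succ _)))

end depth

section mt

variable {V : Type} [Fintype V] {G : V → Option Sg → V → Prop}

theorem short_tk {p q : V} {t : Tok} {m n : ℕ} (h : Path G p (tk t m) q n) :
    ∃ m' n', Path G p (tk t m') q n' ∧ n' ≤ 3 * Fintype.card V := by
  obtain ⟨s, n1, n2, h1, h2⟩ := Path.app_inv [some t] (v := blk m) h
  obtain ⟨n3, h3, h4⟩ := Path.same [some t] h1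
  obtain ⟨u, n4, h5, h6, h7⟩ := h2.cut
  obtain ⟨m', -, rfl⟩ := sublist_blk h5
  refine ⟨m', n3 + n4, h4.app h7, ?_⟩
  simp only [List.length_cons, List.length_nil] at h3
  omega

/-- a step along the spine -/
def St (G : V → Option Sg → V → Prop) (k c : ℕ) (s : V × V) (o : Option Unit) (s' : V × V) :
    Prop :=
  o = none ∧ ∃ (L R : List Sg) (n1 n2 : ℕ), Path G s.1 L s'.1 n1 ∧ Path G s'.2 R s.2 n2 ∧
    n1 + n2 ≤ c ∧ ∀ u, Mt k u → Mt k (L ++ (u ++ R))

omit [Fintype V] in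
theorem St_path {k c : ℕ} {s s' : V × V} {w : List Unit} {n : ℕ} (h : Path (St G k c) s w s' n) :
    ∀ {x : List Sg} {n0 : ℕ}, Path G s'.1 x s'.2 n0 → Mt k x →
      ∃ x' n', Mt k x' ∧ Path G s.1 x' s.2 n' ∧ n' ≤ n * c + n0 := by
  induction h with
  | nil s => intro x n0 h1 h2; exact ⟨x, n0, h2, h1, by omega⟩
  | @cons s1 s2 s3 o u n hs _ ih =>
    intro x n0 h1 h2
    obtain ⟨x', n', h3, h4, h5⟩ := ih h1 h2
    obtain ⟨-, L, R, m1, m2, h6, h7, h8, h9⟩ := hs
    refine ⟨L ++ (x' ++ R), m1 + (n' + m2), h9 _ h3, h6.app (h4.app h7), ?_⟩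
    have : (n + 1) * c = n * c + c := by ring
    omega

theorem spine {k c : ℕ}
    (H : ∀ k', k = k' + 1 → ∀ {p q : V} {x : List Sg} {n : ℕ}, Path G p x q n → Mt k' x →
      ∃ x' n', Mt k' x' ∧ Path G p x' q n' ∧ n' ≤ c) {k0 : ℕ} {x : List Sg} (hx : Mt k0 x) :
    k0 = k → ∀ {p q : V} {n : ℕ}, Path G p x q n →
      ∃ (s' : V × V) (n' : ℕ) (m n0 : ℕ),
        Path (St G k (12 * Fintype.card V + 2 * c)) (p, q) [] s' n' ∧
        Path G s'.1 (tk .d m) s'.2 n0 := by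
  induction hx with
  | d k1 m =>
    intro hk p q n h
    exact ⟨(p, q), 0, m, n, Path.nil _, h⟩
  | a k1 m m' u hu ih =>
    intro hk p q n h
    subst hk
    obtain ⟨s1, n1, n1', h1, h1'⟩ := Path.app_inv (tk .a m) h
    obtain ⟨s2, n2, n2', h2, h2'⟩ := Path.app_inv u h1'
    obtain ⟨s', n', m0, n0, h3, h4⟩ := ih rfl h2
    obtain ⟨m3, n3, h5, h6⟩ := short_tk h1
    obtain ⟨m4, n4, h7, h8⟩ := short_tk h2'
    refine ⟨s', n' + 1, m0, n0, ?_, h4⟩
    refine Path.cons (x := none) (q := (s1, s2)) ?_ h3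
    refine ⟨rfl, tk .a m3, tk .b m4, n3, n4, h5, h7, by omega, ?_⟩
    intro u hu
    exact Mt.a _ _ _ _ hu
  | br k1 m1 m2 m3 m4 x u y hx hu hy _ ih _ =>
    intro hk p q n h
    subst hk
    obtain ⟨s1, n1, n1', h1, h1'⟩ := Path.app_inv (tk .l m1) h
    obtain ⟨s2, n2, n2', h2, h2'⟩ := Path.app_inv x h1'
    obtain ⟨s3, n3, n3', h3, h3'⟩ := Path.app_inv (tk .r m2) h2'
    obtain ⟨s4, n4, n4', h4, h4'⟩ := Path.app_inv u h3'
    obtain ⟨s5, n5, n5', h5, h5'⟩ := Path.app_inv (tk .l m3) h4'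
    obtain ⟨s6, n6, n6', h6, h6'⟩ := Path.app_inv y h5'
    obtain ⟨s', n', m0, n0, h7, h8⟩ := ih rfl h4
    obtain ⟨i1, j1, a1, b1⟩ := short_tk h1
    obtain ⟨x2, j2, a2, c2, b2⟩ := H k1 rfl h2 hx
    obtain ⟨i3, j3, a3, b3⟩ := short_tk h3
    obtain ⟨i5, j5, a5, b5⟩ := short_tk h5
    obtain ⟨y6, j6, a6, c6, b6⟩ := H k1 rfl h6 hy
    obtain ⟨i7, j7, a7, b7⟩ := short_tk h6'
    refine ⟨s', n' + 1, m0, n0, ?_, h8⟩
    refine Path.cons (x := none) (q := (s3, s4)) ?_ h7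
    refine ⟨rfl, tk .l i1 ++ (x2 ++ tk .r i3), tk .l i5 ++ (y6 ++ tk .r i7), j1 + (j2 + j3),
      j5 + (j6 + j7), a1.app (c2.app a3), a5.app (c6.app a7), by omega, ?_⟩
    intro u hu
    have := Mt.br _ i1 i3 i5 i7 x2 u y6 a2 hu a6
    simpa only [List.append_assoc] using this

theorem short_step {k c : ℕ}
    (H : ∀ k', k = k' + 1 → ∀ {p q : V} {x : List Sg} {n : ℕ}, Path G p x q n → Mt k' x →
      ∃ x' n', Mt k' x' ∧ Path G p x' q n' ∧ n' ≤ c) {p q : V} {x : List Sg} {n : ℕ}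
    (h : Path G p x q n) (hx : Mt k x) :
    ∃ x' n', Mt k x' ∧ Path G p x' q n' ∧
      n' ≤ Fintype.card V ^ 2 * (12 * Fintype.card V + 2 * c) + 3 * Fintype.card V := by
  obtain ⟨s', n', m, n0, h1, h2⟩ := spine H hx rfl h
  obtain ⟨w, n1, -, h3, h4⟩ := h1.cut
  obtain ⟨m', n2, h5, h6⟩ := short_tk h2
  obtain ⟨x', n3, h7, h8, h9⟩ := St_path h4 h5 (Mt.d k m')
  refine ⟨x', n3, h7, h8, h9.trans ?_⟩
  rw [Fintype.card_prod] at h3
  have h10 : n1 * (12 * Fintype.card V + 2 * c)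
      ≤ Fintype.card V ^ 2 * (12 * Fintype.card V + 2 * c) := by
    apply Nat.mul_le_mul_right
    rw [pow_two]
    omega
  omega

/-- the bound -/
def bd (N : ℕ) : ℕ → ℕ
  | 0 => N ^ 2 * (12 * N + 2 * 0) + 3 * N
  | k + 1 => N ^ 2 * (12 * N + 2 * bd N k) + 3 * N

theorem short_mt (k : ℕ) : ∀ {p q : V} {x : List Sg} {n : ℕ}, Path G p x q n → Mt k x →
    ∃ x' n', Mt k x' ∧ Path G p x' q n' ∧ n' ≤ bd (Fintype.card V) k := by
  induction k with
  | zero =>
    intro p q x n h hx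
    exact short_step (c := 0) (fun k' hk => absurd hk (by omega)) h hx
  | succ k ih =>
    intro p q x n h hx
    refine short_step (c := bd (Fintype.card V) k) ?_ h hx
    intro k' hk p q x n h hx
    obtain rfl : k = k' := by omega
    exact ih h hx

theorem bd_le {N : ℕ} (hN : 1 ≤ N) (k : ℕ) : bd N k ≤ (17 * N ^ 3) ^ (k + 1) := by
  have h3 : N ≤ N ^ 3 := Nat.le_self_pow (by norm_num) N
  have h2 : N ^ 2 ≤ N ^ 3 := Nat.pow_le_pow_right hN (by norm_num)
  have e : N ^ 2 * (12 * N) = 12 * N ^ 3 := by ring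
  induction k with
  | zero =>
    rw [bd, Nat.mul_zero, Nat.add_zero, e, Nat.zero_add, pow_one]
    omega
  | succ k ih =>
    rw [bd, pow_succ (17 * N ^ 3) (k + 1), Nat.mul_add, e]
    have h4 : 1 ≤ (17 * N ^ 3) ^ (k + 1) := Nat.one_le_pow _ _ (by positivity)
    have h5 : N ^ 2 * (2 * bd N k) ≤ N ^ 3 * (2 * (17 * N ^ 3) ^ (k + 1)) :=
      Nat.mul_le_mul h2 (Nat.mul_le_mul_left 2 ih)
    have h6 : N ^ 3 * 1 ≤ N ^ 3 * (17 * N ^ 3) ^ (k + 1) := Nat.mul_le_mul_left _ h4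
    have h7 : (17 * N ^ 3) ^ (k + 1) * (17 * N ^ 3) = 17 * (N ^ 3 * (17 * N ^ 3) ^ (k + 1)) := by
      ring
    have h8 : N ^ 3 * (2 * (17 * N ^ 3) ^ (k + 1)) = 2 * (N ^ 3 * (17 * N ^ 3) ^ (k + 1)) := by
      ring
    rw [h7]
    rw [h8] at h5
    omega

/-- if a path from `P` to `Q` reads a word of the language, then a short one does -/
theorem short_Lang {P Q : V} {z : List Sg} {n : ℕ} (h : Path G P z Q n) (hz : z ∈ Lang) :
    ∃ z' n', z' ∈ Lang ∧ Path G P z' Q n' ∧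
      n' ≤ (17 * Fintype.card V ^ 3) ^ (lg (Fintype.card V) + 3) := by
  have hN : 1 ≤ Fintype.card V := Fintype.card_pos_iff.2 ⟨P⟩
  by_cases hE : ∃ z' n', Path G P z' Q n' ∧ Err z'
  · obtain ⟨z', n', h1, h2⟩ := hE
    obtain ⟨z'', n'', h3, h4, h5⟩ := short_err h1 h2
    refine ⟨z'', n'', Or.inr h3, h4, h5.trans ?_⟩
    generalize Fintype.card V = N at *
    have h3 : N ≤ N ^ 3 := Nat.le_self_pow (by norm_num) N
    have h2 : N ^ 2 ≤ N ^ 3 := Nat.pow_le_pow_right hN (by norm_num)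
    calc 2 * N ^ 2 + 7 * N ≤ 17 * N ^ 3 := by omega
      _ = (17 * N ^ 3) ^ 1 := (pow_one _).symm
      _ ≤ _ := Nat.pow_le_pow_right (by positivity) (by omega)
  · push Not at hE
    rcases hz with ⟨k, hz⟩ | hz
    · have hz0 : ¬ Err z := hE z n h
      have h1 : Mt (lg (Fintype.card V) + 2) z := by
        refine depthC hz hz0 ?_
        intro x1 t m x2 hx1 hx
        -- the word before the token ends with a token and its block
        have hst : ∃ t0 r, x1 = some t0 :: r := by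
          have hz1 : ∃ t0 r, z = some t0 :: r := by
            cases hz with
            | d => exact ⟨_, _, rfl⟩
            | a => exact ⟨_, _, rfl⟩
            | br => exact ⟨_, _, rfl⟩
          obtain ⟨t0, r, hr⟩ := hz1
          cases x1 with
          | nil => exact absurd rfl hx1
          | cons y x1 =>
            rw [hr] at hx
            have := (List.cons.inj hx).1
            exact ⟨t0, x1, by rw [this]⟩
        obtain ⟨t0, r, rfl⟩ := hst
        have hlast : ∀ r : List Sg, ∃ y t1 e, some t0 :: r = y ++ tk t1 e := by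
          intro r
          induction r using List.reverseRecOn with
          | nil => exact ⟨[], t0, 0, rfl⟩
          | append_singleton r a ih =>
            cases a with
            | none =>
              obtain ⟨y, t1, e, hy⟩ := ih
              refine ⟨y, t1, e + 1, ?_⟩
              have : some t0 :: (r ++ [none]) = (some t0 :: r) ++ [none] := rfl
              rw [this, hy, List.append_assoc]
              congr 1
              exact tk_append t1 e 1
            | some t2 => exact ⟨some t0 :: r, t2, 0, rfl⟩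
        obtain ⟨y, t1, e, hy⟩ := hlast r
        rw [hx, hy, List.append_assoc] at h
        exact (blocks_lt (fun z n h => hE z n h) h).le
      obtain ⟨x', n', h2, h3, h4⟩ := short_mt _ h h1
      exact ⟨x', n', Or.inl ⟨_, h2⟩, h3, h4.trans (bd_le hN _)⟩
    · exact absurd hz (hE z n h)

end mt

end Pool.Agent.N614.QR
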