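import Mathlib
import Pool.Agent.N614.QR.Defs
import Pool.Agent.N614.QR.Up

set_option autoImplicit false

/-!
# A context-free language outside of the cone of `Lang`
-/

namespace Pool.Agent.N614.QR

/-- words of full binary trees -/
inductive Tree : List (Fin 4) → Prop
  | leaf : Tree [3]
  | node (x y : List (Fin 4)) : Tree x → Tree y → Tree (0 :: (x ++ 1 :: (y ++ [2])))

/-- the language of full binary trees -/
def E : Language (Fin 4) := {w | Tree w}

section cf

open Symbol Pool.Agent.Helper178.Gram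

/-- the rules -/
def rlE : List (ContextFreeRule (Fin 4) Unit) := [
  ⟨(), [terminal 3]⟩,
  ⟨(), [terminal 0, nonterminal (), terminal 1, nonterminal (), terminal 2]⟩]

/-- the grammar -/
def grE : ContextFreeGrammar (Fin 4) where
  NT := Unit
  initial := ()
  rules := rlE.toFinset

theorem mem_grE (r : ContextFreeRule (Fin 4) Unit) : r ∈ grE.rules ↔ r ∈ rlE := by
  show r ∈ rlE.toFinset ↔ _
  rw [List.mem_toFinset]

/-- derivable words -/
def DE (w : List (Fin 4)) : Prop := Der grE () w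

theorem DE_of (o : List (Symbol (Fin 4) Unit)) (hr : (⟨(), o⟩ : ContextFreeRule (Fin 4) Unit) ∈ rlE)
    {w : List (Fin 4)} (h : Yl (fun _ => DE) o w) : DE w :=
  complete (g := grE) (r := ⟨(), o⟩) ((mem_grE _).2 hr) h

theorem Tree_closed : ∀ r ∈ rlE, ∀ w, Yl (fun _ : Unit => Tree) r.output w → Tree w := by
  intro r hr w
  simp only [rlE, List.mem_cons, List.not_mem_nil, or_false] at hr
  rcases hr with rfl | rfl
  · rintro ⟨_, rfl, rfl⟩
    exact Tree.leaf
  · rintro ⟨_, rfl, x, _, rfl, hx, _, rfl, y, _, rfl, hy, _, rfl, rfl⟩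
    exact Tree.node x y hx hy

theorem E_cf : E.IsContextFree := by
  refine ⟨grE, ?_⟩
  ext w
  constructor
  · intro h
    have h1 := sound (g := grE) (I := fun _ => Tree)
      (fun r hr w => Tree_closed r ((mem_grE r).1 hr) w) h
    obtain ⟨w1, w2, rfl, h2, h3⟩ := h1
    have : w2 = [] := h3
    rw [this, List.append_nil]
    exact h2
  · intro h
    have h' : Tree w := h
    show DE w
    clear h
    induction h' with
    | leaf => exact DE_of [terminal 3] (by simp [rlE]) ⟨_, rfl, rfl⟩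
    | node x y _ _ ih1 ih2 =>
      exact DE_of [terminal 0, nonterminal (), terminal 1, nonterminal (), terminal 2]
        (by simp [rlE]) ⟨_, rfl, x, _, rfl, ih1, _, rfl, y, _, rfl, ih2, _, rfl, rfl⟩

end cf

section level

/-- the level automaton: `(false, i)` is the state at the start of a subtree at level `i`, and
`(true, i)` the state after it -/
def lv (n : ℕ) (s : Bool × Fin (n + 1)) (x : Fin 4) (s' : Bool × Fin (n + 1)) : Prop :=
  (x = 0 ∧ s.1 = false ∧ s'.1 = false ∧ (s'.2 : ℕ) = s.2 + 1) ∨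
  (x = 1 ∧ s.1 = true ∧ s'.1 = false ∧ s'.2 = s.2) ∨
  (x = 2 ∧ s.1 = true ∧ s'.1 = true ∧ (s.2 : ℕ) = s'.2 + 1) ∨
  (x = 3 ∧ s.1 = false ∧ s'.1 = true ∧ s'.2 = s.2 ∧ (s.2 : ℕ) = n)

/-- runs of the level automaton -/
inductive Lv (n : ℕ) : Bool × Fin (n + 1) → List (Fin 4) → Bool × Fin (n + 1) → Prop
  | nil (s : Bool × Fin (n + 1)) : Lv n s [] s
  | cons {s s' s'' : Bool × Fin (n + 1)} {x : Fin 4} {w : List (Fin 4)} :
      lv n s x s' → Lv n s' w s'' → Lv n s (x :: w) s''

theorem Lv.app_inv {n : ℕ} {s'' : Bool × Fin (n + 1)} {v : List (Fin 4)} :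
    ∀ (u : List (Fin 4)) {s : Bool × Fin (n + 1)}, Lv n s (u ++ v) s'' →
      ∃ s', Lv n s u s' ∧ Lv n s' v s'' := by
  intro u
  induction u with
  | nil => intro s h; exact ⟨s, Lv.nil s, h⟩
  | cons x u ih =>
    intro s h
    cases h with
    | cons h1 h2 =>
      obtain ⟨s', h3, h4⟩ := ih h2
      exact ⟨s', Lv.cons h1 h3, h4⟩

theorem Lv.app {n : ℕ} {s s' s'' : Bool × Fin (n + 1)} {u v : List (Fin 4)}
    (h1 : Lv n s u s') (h2 : Lv n s' v s'') : Lv n s (u ++ v) s'' := by
  induction h1 with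
  | nil s => exact h2
  | cons hs _ ih => exact Lv.cons hs (ih h2)

theorem Lv.tree {n : ℕ} {w : List (Fin 4)} (h : Tree w) : ∀ {i : Fin (n + 1)}
    {s : Bool × Fin (n + 1)}, Lv n (false, i) w s → s = (true, i) ∧ 2 ^ (n - i) ≤ w.length := by
  induction h with
  | leaf =>
    intro i s h
    cases h with
    | cons h1 h2 =>
      cases h2
      rcases h1 with ⟨h, -⟩ | ⟨h, -⟩ | ⟨h, -⟩ | ⟨-, -, h1, h2, h3⟩
      · exact absurd h (by decide)
      · exact absurd h (by decide)
      · exact absurd h (by decide)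
      · refine ⟨Prod.ext h1 h2, ?_⟩
        have : n - (i : ℕ) = 0 := by
          have : (i : ℕ) = n := h3
          omega
        rw [this]
        simp
  | node x y _ _ ih1 ih2 =>
    intro i s h
    cases h with
    | cons h1 h2 =>
      rename_i s1
      rcases h1 with ⟨-, -, h1, h3⟩ | ⟨h, -⟩ | ⟨h, -⟩ | ⟨h, -⟩
      · obtain ⟨s2, h4, h5⟩ := Lv.app_inv x h2
        obtain ⟨b1, i1⟩ := s1
        obtain rfl : b1 = false := h1
        have h3' : (i1 : ℕ) = i + 1 := h3
        obtain ⟨rfl, h6⟩ := ih1 h4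
        cases h5 with
        | cons h7 h8 =>
          rename_i s3
          rcases h7 with ⟨h, -⟩ | ⟨-, -, h7, h9⟩ | ⟨h, -⟩ | ⟨h, -⟩
          · exact absurd h (by decide)
          · obtain ⟨b3, i3⟩ := s3
            obtain rfl : b3 = false := h7
            obtain rfl : i3 = i1 := h9
            obtain ⟨s4, h10, h11⟩ := Lv.app_inv y h8
            obtain ⟨rfl, h12⟩ := ih2 h10
            cases h11 with
            | cons h13 h14 =>
              cases h14
              rcases h13 with ⟨h, -⟩ | ⟨h, -⟩ | ⟨-, -, h13, h15⟩ | ⟨h, -⟩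
              · exact absurd h (by decide)
              · exact absurd h (by decide)
              · obtain ⟨b, i'⟩ := s
                obtain rfl : b = true := h13
                have h15' : (i3 : ℕ) = i' + 1 := h15
                refine ⟨?_, ?_⟩
                · rw [Prod.mk.injEq]
                  exact ⟨rfl, Fin.ext (by omega)⟩
                · have h16 := i3.2
                  have h17 : n - (i : ℕ) = n - (i3 : ℕ) + 1 := by omega
                  rw [h17, pow_succ]
                  simp only [List.length_cons, List.length_append, List.length_nil]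
                  omega
              · exact absurd h (by decide)
          · exact absurd h (by decide)
          · exact absurd h (by decide)
      · exact absurd h (by decide)
      · exact absurd h (by decide)
      · exact absurd h (by decide)

theorem Lv.exists (n : ℕ) : ∀ (d : ℕ) (i : Fin (n + 1)), (i : ℕ) + d = n →
    ∃ w, Tree w ∧ Lv n (false, i) w (true, i) := by
  intro d
  induction d with
  | zero =>
    intro i hi
    exact ⟨[3], Tree.leaf, Lv.cons (s' := (true, i))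
      (Or.inr (Or.inr (Or.inr ⟨rfl, rfl, rfl, rfl, by simpa using hi⟩))) (Lv.nil _)⟩
  | succ d ih =>
    intro i hi
    have hi' : (i : ℕ) + 1 < n + 1 := by omega
    obtain ⟨w, h1, h2⟩ := ih ⟨i + 1, hi'⟩ (by show (i : ℕ) + 1 + d = n; omega)
    refine ⟨_, Tree.node w w h1 h1, ?_⟩
    refine Lv.cons (s' := (false, ⟨i + 1, hi'⟩)) (Or.inl ⟨rfl, rfl, rfl, rfl⟩) ?_
    refine h2.app ?_
    refine Lv.cons (s' := (false, ⟨i + 1, hi'⟩)) (Or.inr (Or.inl ⟨rfl, rfl, rfl, rfl⟩)) ?_
    refine h2.app ?_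
    exact Lv.cons (Or.inr (Or.inr (Or.inl ⟨rfl, rfl, rfl, rfl⟩))) (Lv.nil _)

end level

section prod

/-- product of a transducer and the level automaton -/
def PG {X : Type} (T : Transducer X (Fin 4)) (n : ℕ) (s : T.Q × (Bool × Fin (n + 1)))
    (x : Option X) (s' : T.Q × (Bool × Fin (n + 1))) : Prop :=
  (T.step s.1 x none s'.1 ∧ s.2 = s'.2) ∨ ∃ y, T.step s.1 x (some y) s'.1 ∧ lv n s.2 y s'.2

theorem PG_of {X : Type} (T : Transducer X (Fin 4)) (n : ℕ) {p q : T.Q} {u : List X}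
    {v : List (Fin 4)} (h : T.Run p u v q) : ∀ {s s' : Bool × Fin (n + 1)}, Lv n s v s' →
    ∃ m, Path (PG T n) (p, s) u (q, s') m := by
  induction h with
  | nil p =>
    intro s s' h
    cases h
    exact ⟨0, Path.nil _⟩
  | @cons p q r x y u v hs _ ih =>
    intro s s' h
    cases y with
    | none =>
      obtain ⟨m, hm⟩ := ih h
      exact ⟨m + 1, Path.cons (q := (q, s)) (Or.inl ⟨hs, rfl⟩) hm⟩
    | some y =>
      cases h with
      | cons h1 h2 =>
        rename_i s1
        obtain ⟨m, hm⟩ := ih h2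
        exact ⟨m + 1, Path.cons (q := (q, s1)) (Or.inr ⟨y, hs, h1⟩) hm⟩

theorem of_PG {X : Type} (T : Transducer X (Fin 4)) (n : ℕ)
    {a b : T.Q × (Bool × Fin (n + 1))} {u : List X} {m : ℕ} (h : Path (PG T n) a u b m) :
    ∃ v, T.Run a.1 u v b.1 ∧ Lv n a.2 v b.2 ∧ v.length ≤ m := by
  induction h with
  | nil p => exact ⟨[], Transducer.Run.nil _, Lv.nil _, by simp⟩
  | @cons a b c x u m hs _ ih =>
    obtain ⟨v, h1, h2, h3⟩ := ih
    rcases hs with ⟨h4, h5⟩ | ⟨y, h4, h5⟩
    · refine ⟨v, ?_, ?_, by omega⟩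
      · have := Transducer.Run.cons h4 h1
        simpa using this
      · rw [h5]
        exact h2
    · refine ⟨y :: v, ?_, Lv.cons h5 h2, by simp [h3]⟩
      have := Transducer.Run.cons h4 h1
      simpa using this

theorem arith0 (k : ℕ) (hk : 12 ≤ k) : (6 * k + 8) * (2 * k + 4) + 1 < 2 ^ k := by
  induction k, hk using Nat.le_induction with
  | base => norm_num
  | succ k hk ih =>
    rw [pow_succ]
    nlinarith

theorem arith (c : ℕ) :
    ∃ n, (17 * (c * (2 * (n + 1))) ^ 3) ^ (lg (c * (2 * (n + 1))) + 3) < 2 ^ n := by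
  obtain ⟨e, he⟩ : ∃ e, c ≤ 2 ^ e := ⟨c, Nat.lt_two_pow_self.le⟩
  obtain ⟨k, hk⟩ : ∃ k, k = e + 12 := ⟨_, rfl⟩
  have h0 := arith0 k (by omega)
  have h1 : 2 ^ k - 1 + 1 = 2 ^ k := by
    have : 1 ≤ 2 ^ k := Nat.one_le_two_pow
    omega
  refine ⟨2 ^ k - 1, ?_⟩
  rw [h1]
  have h2 : c * (2 * 2 ^ k) ≤ 2 ^ (e + k + 1) := by
    have e1 : 2 ^ (e + k + 1) = 2 ^ e * (2 * 2 ^ k) := by ring
    rw [e1]
    exact Nat.mul_le_mul_right _ he
  have h3 : lg (c * (2 * 2 ^ k)) ≤ e + k + 1 := by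
    have h4 : lg (c * (2 * 2 ^ k)) < e + k + 2 := by
      rw [lg]
      refine Nat.log_lt_of_lt_pow (by omega) ?_
      have e1 : 2 ^ (e + k + 2) = 2 * 2 ^ (e + k + 1) := by ring
      have h5 : 2 ≤ 2 ^ (e + k + 1) := by
        calc 2 = 2 ^ 1 := by norm_num
          _ ≤ _ := Nat.pow_le_pow_right (by norm_num) (by omega)
      omega
    omega
  have h4 : 17 * (c * (2 * 2 ^ k)) ^ 3 ≤ 2 ^ (3 * e + 3 * k + 8) := by
    calc 17 * (c * (2 * 2 ^ k)) ^ 3 ≤ 32 * (2 ^ (e + k + 1)) ^ 3 :=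
          Nat.mul_le_mul (by norm_num) (Nat.pow_le_pow_left h2 3)
      _ = 2 ^ (3 * e + 3 * k + 8) := by
          rw [← pow_mul, show (32 : ℕ) = 2 ^ 5 by norm_num, ← pow_add]
          congr 1
          ring
  calc (17 * (c * (2 * 2 ^ k)) ^ 3) ^ (lg (c * (2 * 2 ^ k)) + 3)
      ≤ (2 ^ (3 * e + 3 * k + 8)) ^ (lg (c * (2 * 2 ^ k)) + 3) := Nat.pow_le_pow_left h4 _
    _ ≤ (2 ^ (3 * e + 3 * k + 8)) ^ (e + k + 1 + 3) :=
        Nat.pow_le_pow_right (by positivity) (by omega)
    _ = 2 ^ ((3 * e + 3 * k + 8) * (e + k + 4)) := by rw [← pow_mul]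
    _ < 2 ^ (2 ^ k - 1) := by
        apply Nat.pow_lt_pow_right (by norm_num)
        have h5 : (3 * e + 3 * k + 8) * (e + k + 4) ≤ (6 * k + 8) * (2 * k + 4) :=
          Nat.mul_le_mul (by omega) (by omega)
        omega

theorem E_not : ¬ InCone Lang E := by
  rintro ⟨T, hT⟩
  have := T.finite
  have : Fintype T.Q := Fintype.ofFinite T.Q
  obtain ⟨n, hn⟩ := arith (Fintype.card T.Q)
  obtain ⟨v, hv1, hv2⟩ := Lv.exists n n 0 (by simp)
  have hv : v ∈ T.image Lang := by rw [← hT]; exact hv1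
  obtain ⟨u, hu, p, hp, q, hq, hr⟩ := hv
  obtain ⟨m, hm⟩ := PG_of T n hr hv2
  obtain ⟨u', m', hu', hm', hle⟩ := short_Lang hm hu
  obtain ⟨v', h1, h2, h3⟩ := of_PG T n hm'
  have h4 : v' ∈ E := by rw [hT]; exact ⟨u', hu', p, hp, q, hq, h1⟩
  have h5 := (Lv.tree h4 h2).2
  have hcard : Fintype.card (T.Q × (Bool × Fin (n + 1))) = Fintype.card T.Q * (2 * (n + 1)) := by
    simp
  rw [hcard] at hle
  have h6 : 2 ^ n ≤ v'.length := by simpa using h5
  omega

end prod

end Pool.Agent.N614.QR
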