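import Mathlib
import Pool.Agent.N614.QR.Comp
import Pool.Agent.N614.QR.Lang

set_option autoImplicit false

/-!
# The languages `VL k` of matching words annotated with levels, as images of `Lang`
-/

namespace Pool.Agent.N614.QR

/-- words of level `k` -/
inductive VW : ℕ → List (Tok × ℕ) → Prop
  | d (k : ℕ) : VW k [(.d, k)]
  | a (k : ℕ) (w : List (Tok × ℕ)) : VW k w → VW k ((.a, k) :: (w ++ [(.b, k)]))
  | br (k : ℕ) (x w y : List (Tok × ℕ)) : VW k x → VW (k + 1) w → VW k y →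
      VW (k + 1) ((.l, k + 1) :: (x ++ ((.r, k + 1) :: (w ++ ((.l, k + 1) :: (y ++
        [(.r, k + 1)]))))))

/-- the language of words of level `k` -/
def VL (k : ℕ) : Language (Tok × ℕ) := {w | VW k w}

/-- `cs K j (t, i) j'`: the letter `(t, i)` leads from level `j` to level `j'` -/
def cs (K j : ℕ) (x : Tok × ℕ) (j' : ℕ) : Prop :=
  j ≤ K ∧ j' ≤ K ∧ match x.1 with
  | .a => x.2 = j ∧ j' = j
  | .b => x.2 = j ∧ j' = j
  | .d => x.2 = j ∧ j' = j
  | .l => x.2 = j ∧ j = j' + 1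
  | .r => x.2 = j' ∧ j' = j + 1

/-- block length of a level -/
def f (j : ℕ) : ℕ := 2 ^ j - 1

theorem f_succ (j : ℕ) : f (j + 1) = 2 * f j + 1 := by
  have : 1 ≤ 2 ^ j := Nat.one_le_two_pow
  rw [f, f, pow_succ]
  omega

theorem cs_not_bad {K j j' : ℕ} {x : Tok × ℕ} (h : cs K j x j') : ¬ bad (f j) x.1 (f j') := by
  obtain ⟨t, i⟩ := x
  obtain ⟨-, -, h⟩ := h
  cases t
  · obtain ⟨-, rfl⟩ := h
    show ¬ (f j' + 1 ≤ f j')
    omega
  · obtain ⟨-, rfl⟩ := h
    show ¬ (f j' + 1 ≤ f j')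
    omega
  · obtain ⟨-, rfl⟩ := h
    show ¬ (f j' + 1 ≤ f j')
    omega
  · obtain ⟨-, rfl⟩ := h
    show ¬ (f (j' + 1) ≤ 2 * f j')
    rw [f_succ]
    omega
  · obtain ⟨-, rfl⟩ := h
    show ¬ (2 * f j + 2 ≤ f (j + 1))
    rw [f_succ]
    omega

/-- consistent words of annotated letters, and their encodings -/
inductive Hs (K : ℕ) : ℕ → List (Tok × ℕ) → List Sg → ℕ → Prop
  | nil (j : ℕ) : Hs K j [] [] j
  | cons {j j' j'' : ℕ} {x : Tok × ℕ} {z : List (Tok × ℕ)} {w : List Sg} :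
      cs K j x j' → Hs K j' z w j'' → Hs K j (x :: z) (tk x.1 (f j') ++ w) j''

theorem Hs.app {K j j' j'' : ℕ} {z z' : List (Tok × ℕ)} {w w' : List Sg} (h : Hs K j z w j')
    (h' : Hs K j' z' w' j'') : Hs K j (z ++ z') (w ++ w') j'' := by
  induction h with
  | nil j => exact h'
  | @cons j j1 j' x z w h1 _ ih =>
    rw [List.append_assoc]
    exact Hs.cons h1 (ih h')

theorem Hs.one {K j j' : ℕ} {x : Tok × ℕ} (h : cs K j x j') : Hs K j [x] (tk x.1 (f j')) j' := by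
  have := Hs.cons h (Hs.nil j')
  rwa [List.append_nil] at this

/-- empty or starting with a token -/
def Tst (w : List Sg) : Prop := w = [] ∨ ∃ t w', w = some t :: w'

theorem Hs.tst {K j j' : ℕ} {z : List (Tok × ℕ)} {w : List Sg} (h : Hs K j z w j') : Tst w := by
  cases h with
  | nil => exact Or.inl rfl
  | cons => exact Or.inr ⟨_, _, rfl⟩

theorem Mt.tst {k : ℕ} {w : List Sg} (h : Mt k w) : ∃ t w', w = some t :: w' := by
  cases h with
  | d => exact ⟨_, _, rfl⟩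
  | a => exact ⟨_, _, rfl⟩
  | br => exact ⟨_, _, rfl⟩

theorem blk_split {w w' : List Sg} : ∀ {n : ℕ} {u : List Sg}, blk n ++ w = u ++ w' → Tst w' →
    (w' = [] ∧ u = blk n ++ w) ∨ ∃ u', u = blk n ++ u' ∧ w = u' ++ w' := by
  intro n
  induction n with
  | zero => intro u h _; exact Or.inr ⟨u, rfl, h⟩
  | succ n ih =>
    intro u h hw
    rw [← blk_succ, List.cons_append] at h
    cases u with
    | nil =>
      rcases hw with rfl | ⟨t, w1, rfl⟩
      · cases h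
      · cases h
    | cons y u =>
      obtain ⟨rfl, h'⟩ := List.cons.inj h
      rcases ih h' hw with ⟨h1, h2⟩ | ⟨u', h1, h2⟩
      · refine Or.inl ⟨h1, ?_⟩
        rw [h2, ← blk_succ, List.cons_append]
      · refine Or.inr ⟨u', ?_, h2⟩
        rw [h1, ← blk_succ, List.cons_append]

theorem Hs.split {K j j' : ℕ} {z : List (Tok × ℕ)} {w0 : List Sg} (h : Hs K j z w0 j') :
    ∀ {u w : List Sg}, w0 = u ++ w → Tst w →
      ∃ z1 z2 j1, z = z1 ++ z2 ∧ Hs K j z1 u j1 ∧ Hs K j1 z2 w j' := by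
  induction h with
  | nil j =>
    intro u w h _
    obtain ⟨rfl, rfl⟩ := List.append_eq_nil_iff.1 h.symm
    exact ⟨[], [], j, rfl, Hs.nil j, Hs.nil j⟩
  | @cons j j1 j' x z w1 h1 h2 ih =>
    intro u w h hw
    cases u with
    | nil =>
      refine ⟨[], x :: z, j, rfl, Hs.nil j, ?_⟩
      have : w = tk x.1 (f j1) ++ w1 := h.symm
      rw [this]
      exact Hs.cons h1 h2
    | cons y u =>
      have h' : some x.1 :: (blk (f j1) ++ w1) = y :: (u ++ w) := h
      obtain ⟨rfl, h3⟩ := List.cons.inj h'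
      rcases blk_split h3 hw with ⟨rfl, rfl⟩ | ⟨u', rfl, h4⟩
      · obtain ⟨z1, z2, j2, rfl, h5, h6⟩ := ih (u := w1) (w := []) (by simp) (Or.inl rfl)
        exact ⟨x :: z1, z2, j2, rfl, Hs.cons h1 h5, h6⟩
      · obtain ⟨z1, z2, j2, rfl, h5, h6⟩ := ih h4 hw
        exact ⟨x :: z1, z2, j2, rfl, Hs.cons h1 h5, h6⟩

theorem Hs.tok {K j j' : ℕ} {z : List (Tok × ℕ)} {t : Tok} {m : ℕ} (h : Hs K j z (tk t m) j') :
    ∃ i, z = [(t, i)] ∧ cs K j (t, i) j' := by
  generalize hw : tk t m = w at h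
  cases h with
  | nil => cases hw
  | cons h1 h2 =>
    rename_i j1 x z w1
    have h' : some t :: blk m = some x.1 :: (blk (f j1) ++ w1) := hw
    obtain ⟨h3, h4⟩ := List.cons.inj h'
    have h5 : t = x.1 := Option.some.inj h3
    have h6 : w1 = [] := by
      rcases h2.tst with h6 | ⟨t', w', rfl⟩
      · exact h6
      · exfalso
        have : (some t' : Sg) ∈ blk m := by rw [h4]; simp
        have := List.eq_of_mem_replicate this
        cases this
    subst h6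
    have h7 : z = [] ∧ j1 = j' := by
      generalize hn : ([] : List Sg) = w at h2
      cases h2 with
      | nil => exact ⟨rfl, rfl⟩
      | cons _ _ => cases hn
    obtain ⟨rfl, rfl⟩ := h7
    exact ⟨x.2, by rw [h5], by rw [h5]; exact h1⟩

theorem VW.of_Mt {K k : ℕ} {w : List Sg} (h : Mt k w) : ∀ {j j' : ℕ} {z : List (Tok × ℕ)},
    Hs K j z w j' → VW j z ∧ j' = j := by
  induction h with
  | d k m =>
    intro j j' z h
    obtain ⟨i, rfl, -, -, rfl, rfl⟩ := h.tok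
    exact ⟨VW.d _, rfl⟩
  | a k m m' u hu ih =>
    intro j j' z h
    obtain ⟨t, w', htu⟩ := hu.tst
    obtain ⟨z1, z2, j1, rfl, h1, h2⟩ := h.split rfl (Or.inr ⟨t, w' ++ tk .b m', by rw [htu]; rfl⟩)
    obtain ⟨z3, z4, j2, rfl, h3, h4⟩ := h2.split rfl (Or.inr ⟨.b, _, rfl⟩)
    obtain ⟨i, rfl, -, -, rfl, rfl⟩ := h1.tok
    obtain ⟨h5, rfl⟩ := ih h3
    obtain ⟨i', rfl, -, -, rfl, rfl⟩ := h4.tok
    exact ⟨VW.a _ _ h5, rfl⟩
  | br k m1 m2 m3 m4 x u y hx hu hy ihx ihu ihy =>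
    intro j j' z h
    obtain ⟨t, w', htx⟩ := hx.tst
    obtain ⟨t2, w2', htu⟩ := hu.tst
    obtain ⟨t3, w3', hty⟩ := hy.tst
    obtain ⟨z1, z2, j1, rfl, h1, h2⟩ := h.split rfl (Or.inr ⟨t, _, by rw [htx]; rfl⟩)
    obtain ⟨z3, z4, j2, rfl, h3, h4⟩ := h2.split rfl (Or.inr ⟨.r, _, rfl⟩)
    obtain ⟨z5, z6, j3, rfl, h5, h6⟩ := h4.split rfl (Or.inr ⟨t2, _, by rw [htu]; rfl⟩)
    obtain ⟨z7, z8, j4, rfl, h7, h8⟩ := h6.split rfl (Or.inr ⟨.l, _, rfl⟩)
    obtain ⟨z9, z10, j5, rfl, h9, h10⟩ := h8.split rfl (Or.inr ⟨t3, _, by rw [hty]; rfl⟩)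
    obtain ⟨z11, z12, j6, rfl, h11, h12⟩ := h10.split rfl (Or.inr ⟨.r, _, rfl⟩)
    obtain ⟨i1, rfl, -, -, e1, e2⟩ := h1.tok
    obtain ⟨g1, rfl⟩ := ihx h3
    obtain ⟨i2, rfl, -, -, e3, e4⟩ := h5.tok
    obtain ⟨g2, rfl⟩ := ihu h7
    obtain ⟨i3, rfl, -, -, e5, e6⟩ := h9.tok
    obtain ⟨g3, rfl⟩ := ihy h11
    obtain ⟨i4, rfl, -, -, e7, e8⟩ := h12.tok
    dsimp only at e1 e2 e3 e4 e5 e6 e7 e8
    clear h h1 h2 h4 h5 h6 h8 h9 h10 h12 h3 h7 h11
    obtain rfl : j6 = j2 := by omega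
    obtain rfl : j = j6 + 1 := by omega
    obtain rfl : j4 = j6 + 1 := by omega
    obtain rfl : j' = j6 + 1 := by omega
    obtain rfl : i1 = j6 + 1 := by omega
    obtain rfl : i2 = j6 + 1 := by omega
    obtain rfl : i3 = j6 + 1 := by omega
    obtain rfl : i4 = j6 + 1 := by omega
    exact ⟨VW.br _ _ _ _ g1 g2 g3, rfl⟩

theorem VW.to_Mt {K j : ℕ} {z : List (Tok × ℕ)} (h : VW j z) (hj : j ≤ K) :
    ∃ w, Hs K j z w j ∧ Mt j w := by
  induction h with
  | d k => exact ⟨_, Hs.one (x := (.d, k)) ⟨hj, hj, rfl, rfl⟩, Mt.d k _⟩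
  | a k w _ ih =>
    obtain ⟨w', h1, h2⟩ := ih hj
    refine ⟨_, ?_, Mt.a k (f k) (f k) w' h2⟩
    exact (Hs.one (x := (.a, k)) ⟨hj, hj, rfl, rfl⟩).app
      (h1.app (Hs.one (x := (.b, k)) ⟨hj, hj, rfl, rfl⟩))
  | br k x w y _ _ _ ihx ihw ihy =>
    obtain ⟨x', h1, h2⟩ := ihx (by omega)
    obtain ⟨w', h3, h4⟩ := ihw hj
    obtain ⟨y', h5, h6⟩ := ihy (by omega)
    refine ⟨_, ?_, Mt.br k (f k) (f (k + 1)) (f k) (f (k + 1)) x' w' y' h2 h4 h6⟩
    have hl : cs K (k + 1) (Tok.l, k + 1) k := ⟨hj, by omega, rfl, rfl⟩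
    have hr : cs K k (Tok.r, k + 1) (k + 1) := ⟨by omega, hj, rfl, rfl⟩
    exact (Hs.one hl).app (h1.app ((Hs.one hr).app (h3.app ((Hs.one hl).app
      (h5.app (Hs.one hr))))))

theorem blk_eq {w Y : List Sg} {t : Tok} : ∀ {n m : ℕ}, blk m ++ (some t :: Y) = blk n ++ w →
    Tst w → m = n ∧ w = some t :: Y := by
  intro n
  induction n with
  | zero =>
    intro m h hw
    cases m with
    | zero => exact ⟨rfl, h.symm⟩
    | succ m =>
      exfalso
      rw [← blk_succ, List.cons_append] at h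
      have h' : none :: (blk m ++ some t :: Y) = w := h
      rcases hw with rfl | ⟨t', w', rfl⟩
      · cases h'
      · cases h'
  | succ n ih =>
    intro m h hw
    rw [← blk_succ n, List.cons_append] at h
    cases m with
    | zero => cases h
    | succ m =>
      rw [← blk_succ, List.cons_append] at h
      obtain ⟨-, h'⟩ := List.cons.inj h
      obtain ⟨h1, h2⟩ := ih h' hw
      exact ⟨by omega, h2⟩

theorem blk_le {w v : List Sg} : ∀ {n m : ℕ}, blk m ++ v = blk n ++ w → Tst w → m ≤ n := by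
  intro n
  induction n with
  | zero =>
    intro m h hw
    cases m with
    | zero => exact le_rfl
    | succ m =>
      exfalso
      rw [← blk_succ, List.cons_append] at h
      have h' : none :: (blk m ++ v) = w := h
      rcases hw with rfl | ⟨t', w', rfl⟩
      · cases h'
      · cases h'
  | succ n ih =>
    intro m h hw
    cases m with
    | zero => exact Nat.zero_le _
    | succ m =>
      rw [← blk_succ n, List.cons_append, ← blk_succ, List.cons_append] at h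
      obtain ⟨-, h'⟩ := List.cons.inj h
      have := ih h' hw
      omega

theorem blk_next {w : List Sg} {t0 : Tok} {X : List Sg} : ∀ {n : ℕ} {u : List Sg},
    blk n ++ w = u ++ (some t0 :: X) → ∃ u', u = blk n ++ u' ∧ w = u' ++ some t0 :: X := by
  intro n
  induction n with
  | zero => intro u h; exact ⟨u, rfl, h⟩
  | succ n ih =>
    intro u h
    rw [← blk_succ n, List.cons_append] at h
    cases u with
    | nil => cases h
    | cons y u =>
      obtain ⟨rfl, h'⟩ := List.cons.inj h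
      obtain ⟨u', h1, h2⟩ := ih h'
      exact ⟨u', by rw [h1, ← blk_succ, List.cons_append], h2⟩

theorem Hs.not_err {K j j' : ℕ} {z : List (Tok × ℕ)} {w : List Sg} (h : Hs K j z w j') :
    ∀ t, ¬ Err (tk t (f j) ++ w) := by
  induction h with
  | nil j =>
    rintro t ⟨u, t0, m, t1, m', v, h1, -⟩
    rw [List.append_nil] at h1
    have h2 := congrArg (fun l : List Sg => (l.filter (fun x => x.isSome)).length) h1
    have h3 : ∀ n, (blk n).filter (fun x => x.isSome) = [] := by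
      intro n
      rw [List.filter_eq_nil_iff]
      intro a ha
      rw [List.eq_of_mem_replicate ha]
      simp
    simp [tk, List.filter_append, h3] at h2
    omega
  | @cons j j1 j' x z w1 h1 h2 ih =>
    rintro t ⟨u, t0, m, t1, m', v, e, hb⟩
    cases u with
    | nil =>
      have e' : some t :: (blk (f j) ++ (some x.1 :: (blk (f j1) ++ w1))) =
          some t0 :: (blk m ++ (some t1 :: (blk m' ++ v))) := e
      obtain ⟨-, e1⟩ := List.cons.inj e'
      obtain ⟨rfl, e2⟩ := blk_eq e1.symm (Or.inr ⟨_, _, rfl⟩)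
      obtain ⟨e3, e4⟩ := List.cons.inj e2
      obtain rfl : x.1 = t1 := Option.some.inj e3
      have h3 := blk_le e4.symm h2.tst
      apply cs_not_bad h1
      revert hb
      cases x.1 <;> simp only [bad] <;> omega
    | cons y u =>
      have e' : some t :: (blk (f j) ++ (tk x.1 (f j1) ++ w1)) =
          y :: (u ++ (some t0 :: (blk m ++ (tk t1 m' ++ v)))) := e
      obtain ⟨-, e1⟩ := List.cons.inj e'
      obtain ⟨u', rfl, e2⟩ := blk_next e1
      exact ih x.1 ⟨u', t0, m, t1, m', v, e2, hb⟩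

theorem Hs.not_err' {K j j' : ℕ} {z : List (Tok × ℕ)} {w : List Sg} (h : Hs K j z w j') :
    ¬ Err w := by
  rintro ⟨u, t0, m, t1, m', v, rfl, hb⟩
  exact h.not_err .a ⟨tk .a (f j) ++ u, t0, m, t1, m', v, by simp, hb⟩

/-- the transducer which reads encodings and writes annotated words -/
def tr0 (K : ℕ) : Transducer Sg (Tok × ℕ) where
  Q := Fin (K + 1) × Fin (f K + 1)
  finite := inferInstance
  step := fun p x y q =>
    ((p.2 : ℕ) = 0 ∧ ∃ t i, x = some (some t) ∧ y = some (t, i) ∧ cs K p.1 (t, i) q.1 ∧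
      (q.2 : ℕ) = f q.1) ∨
    (x = some none ∧ y = none ∧ p.1 = q.1 ∧ (p.2 : ℕ) = q.2 + 1)
  start := {p | (p.1 : ℕ) = K ∧ (p.2 : ℕ) = 0}
  final := {p | (p.1 : ℕ) = K ∧ (p.2 : ℕ) = 0}

theorem f_mono {j k : ℕ} (h : j ≤ k) : f j ≤ f k :=
  Nat.sub_le_sub_right (Nat.pow_le_pow_right (by norm_num) h) 1

theorem tr0_run_inv {K : ℕ} {p q : (tr0 K).Q} {u : List Sg} {v : List (Tok × ℕ)}
    (h : (tr0 K).Run p u v q) : (q.2 : ℕ) = 0 → ∃ w, u = blk p.2 ++ w ∧ Hs K p.1 v w q.1 := by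
  induction h with
  | nil p =>
    intro hq
    exact ⟨[], by rw [hq]; rfl, Hs.nil _⟩
  | @cons p q r x y u v hs _ ih =>
    intro hr
    obtain ⟨w, rfl, h1⟩ := ih hr
    rcases hs with ⟨h2, t, i, rfl, rfl, h3, h4⟩ | ⟨rfl, rfl, h2, h3⟩
    · refine ⟨tk t (f q.1) ++ w, ?_, ?_⟩
      · rw [h2, h4]
        rfl
      · exact Hs.cons h3 h1
    · refine ⟨w, ?_, ?_⟩
      · rw [h3, ← blk_succ]
        rfl
      · rw [h2]
        exact h1

theorem tr0_run {K j j' : ℕ} {z : List (Tok × ℕ)} {w : List Sg} (h : Hs K j z w j')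
    (hj : j < K + 1) (hj' : j' < K + 1) :
    (tr0 K).Run (⟨j, hj⟩, ⟨0, Nat.succ_pos _⟩) w z (⟨j', hj'⟩, ⟨0, Nat.succ_pos _⟩) := by
  induction h with
  | nil j => exact Transducer.Run.nil (T := tr0 K) (⟨j, hj⟩, ⟨0, Nat.succ_pos _⟩)
  | @cons j j1 j' x z w h1 _ ih =>
    have hj1 : j1 < K + 1 := by have := h1.2.1; omega
    have h2 : f j1 < f K + 1 := by have := f_mono h1.2.1; omega
    have h3 : ∀ n (hn : n < f K + 1), (tr0 K).Run (⟨j1, hj1⟩, ⟨n, hn⟩) (blk n) []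
        (⟨j1, hj1⟩, ⟨0, Nat.succ_pos _⟩) := by
      intro n
      induction n with
      | zero => intro hn; exact Transducer.Run.nil (T := tr0 K) (⟨j1, hj1⟩, ⟨0, Nat.succ_pos _⟩)
      | succ n ihn =>
        intro hn
        have := Transducer.Run.cons (T := tr0 K) (p := (⟨j1, hj1⟩, ⟨n + 1, hn⟩))
          (q := (⟨j1, hj1⟩, ⟨n, by omega⟩)) (x := some none) (y := none)
          (Or.inr ⟨rfl, rfl, rfl, rfl⟩) (ihn (by omega))
        rw [← blk_succ]
        exact this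
    have h4 := (h3 _ h2).trans (ih hj1 hj')
    exact Transducer.Run.cons (T := tr0 K) (p := (⟨j, hj⟩, ⟨0, Nat.succ_pos _⟩))
      (q := (⟨j1, hj1⟩, ⟨f j1, h2⟩)) (x := some (some x.1)) (y := some x)
      (Or.inl ⟨rfl, x.1, x.2, rfl, rfl, h1, rfl⟩) h4

theorem VL_inCone (K : ℕ) : InCone Lang (VL K) := by
  rw [inCone_iff]
  refine ⟨tr0 K, fun z => ?_⟩
  constructor
  · intro hz
    obtain ⟨w, h1, h2⟩ := VW.to_Mt (K := K) hz le_rfl
    exact ⟨w, Or.inl ⟨_, h2⟩, (⟨K, Nat.lt_succ_self K⟩, ⟨0, Nat.succ_pos _⟩), ⟨rfl, rfl⟩,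
      (⟨K, Nat.lt_succ_self K⟩, ⟨0, Nat.succ_pos _⟩), ⟨rfl, rfl⟩, tr0_run h1 _ _⟩
  · rintro ⟨u, hu, p, ⟨hp1, hp2⟩, q, ⟨hq1, hq2⟩, hr⟩
    obtain ⟨w, rfl, h1⟩ := tr0_run_inv hr hq2
    rw [hp2] at hu
    have hu' : w ∈ Lang := hu
    rw [hp1, hq1] at h1
    rcases hu' with ⟨k, hk⟩ | hE
    · exact (VW.of_Mt hk h1).1
    · exact absurd hE h1.not_err'

end Pool.Agent.N614.QR
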