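import Mathlib
import Pool.Agent.N614.QR.Comp
import Pool.Agent.N614.QR.VK
import Pool.Agent.N614.QR.LinAut

set_option autoImplicit false

/-!
# Substitution into linear languages
-/

namespace Pool.Agent.N614.QR

section sg

variable {X Y : Type}

/-- the language generated by a linear automaton after a substitution -/
inductive SG (M : LA X) (σ : X → Language Y) : M.Q → List Y → Prop
  | fin {q : M.Q} : M.fin q → SG M σ q []
  | eps {q q' : M.Q} {v : List Y} : M.eps q q' → SG M σ q' v → SG M σ q v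
  | left {q q' : M.Q} {x : X} {v1 v : List Y} : M.stL q x q' → v1 ∈ σ x → SG M σ q' v →
      SG M σ q (v1 ++ v)
  | right {q q' : M.Q} {x : X} {v2 v : List Y} : M.stR q x q' → v2 ∈ σ x → SG M σ q' v →
      SG M σ q (v ++ v2)

theorem SG_iff (M : LA X) (σ : X → Language Y) (q : M.Q) (v : List Y) :
    SG M σ q v ↔ ∃ u, M.Gen q u ∧ v ∈ (u.map σ).prod := by
  constructor
  · intro h
    induction h with
    | fin h => exact ⟨[], LA.Gen.fin h, by simp [Language.mem_one]⟩
    | eps h _ ih =>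
      obtain ⟨u, h1, h2⟩ := ih
      exact ⟨u, LA.Gen.eps h h1, h2⟩
    | left h h' _ ih =>
      obtain ⟨u, h1, h2⟩ := ih
      refine ⟨_, LA.Gen.left h h1, ?_⟩
      rw [List.map_cons, List.prod_cons, Language.mem_mul]
      exact ⟨_, h', _, h2, rfl⟩
    | right h h' _ ih =>
      obtain ⟨u, h1, h2⟩ := ih
      refine ⟨_, LA.Gen.right h h1, ?_⟩
      rw [List.map_append, List.prod_append, Language.mem_mul]
      exact ⟨_, h2, _, by simpa using h', rfl⟩
  · rintro ⟨u, h, hv⟩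
    induction h generalizing v with
    | fin h =>
      have : v = [] := by simpa [Language.mem_one] using hv
      rw [this]
      exact SG.fin h
    | eps h _ ih => exact SG.eps h (ih v hv)
    | left h _ ih =>
      rw [List.map_cons, List.prod_cons, Language.mem_mul] at hv
      obtain ⟨v1, h1, v2, h2, rfl⟩ := hv
      exact SG.left h h1 (ih _ h2)
    | right h _ ih =>
      rw [List.map_append, List.prod_append, Language.mem_mul] at hv
      obtain ⟨v1, h1, v2, h2, rfl⟩ := hv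
      exact SG.right h (by simpa using h2) (ih _ h1)

end sg

theorem VW.level {k : ℕ} {w : List (Tok × ℕ)} (h : VW k w) : ∀ c ∈ w, c.2 ≤ k := by
  induction h with
  | d k => simp
  | a k w _ ih =>
    intro c hc
    simp only [List.mem_cons, List.mem_append, List.not_mem_nil, or_false] at hc
    rcases hc with rfl | hc | rfl
    · exact le_rfl
    · exact ih c hc
    · exact le_rfl
  | br k x w y _ _ _ ihx ihw ihy =>
    intro c hc
    simp only [List.mem_cons, List.mem_append, List.not_mem_nil, or_false] at hc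
    rcases hc with rfl | hc | rfl | hc | rfl | hc | rfl
    · exact le_rfl
    · exact (ihx c hc).trans (Nat.le_succ _)
    · exact le_rfl
    · exact ihw c hc
    · exact le_rfl
    · exact (ihy c hc).trans (Nat.le_succ _)
    · exact le_rfl

section trans

variable {X Y : Type} (M : LA X) (T : X → Transducer (Tok × ℕ) Y) (C : ℕ) (e : X → ℕ) (k : ℕ)

/-- states -/
inductive S3
  | lft (q : M.Q) (i : Fin (C + 2))
  | lin (q : M.Q) (x : X) (p : (T x).Q)
  | ldum (q : M.Q)
  | rin (x : X) (p : (T x).Q)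
  | rdum
  | rcnt (i : Fin (C + 2))

theorem S3_finite [Finite X] : Finite (S3 M T C) := by
  have := M.finite
  have := fun x => (T x).finite
  let g : S3 M T C → (M.Q × Fin (C + 2)) ⊕ (M.Q × (Σ x, (T x).Q)) ⊕ M.Q ⊕ (Σ x, (T x).Q) ⊕
      Unit ⊕ Fin (C + 2) := fun s => match s with
    | .lft q i => .inl (q, i)
    | .lin q x p => .inr (.inl (q, ⟨x, p⟩))
    | .ldum q => .inr (.inr (.inl q))
    | .rin x p => .inr (.inr (.inr (.inl ⟨x, p⟩)))
    | .rdum => .inr (.inr (.inr (.inr (.inl ()))))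
    | .rcnt i => .inr (.inr (.inr (.inr (.inr i))))
  refine Finite.of_injective g ?_
  intro s s' h
  cases s <;> cases s' <;> simp [g] at h ⊢ <;> exact h

/-- steps -/
inductive st3 : S3 M T C → Option (Tok × ℕ) → Option Y → S3 M T C → Prop
  | eps {q q' : M.Q} {i : Fin (C + 2)} : M.eps q q' → st3 (.lft q i) none none (.lft q' i)
  | a {q : M.Q} {i j : Fin (C + 2)} : (j : ℕ) = i + 1 →
      st3 (.lft q i) (some (.a, k + 1)) none (.lft q j)
  | fin {q : M.Q} {i : Fin (C + 2)} : M.fin q → (i : ℕ) = 0 →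
      st3 (.lft q i) (some (.d, k + 1)) none (.rcnt i)
  | L {q q' : M.Q} {x : X} {i : Fin (C + 2)} {p : (T x).Q} : M.stL q x q' → (i : ℕ) = 0 →
      p ∈ (T x).start → st3 (.lft q i) (some (.l, k + 1)) none (.lin q' x p)
  | inL {q : M.Q} {x : X} {p p' : (T x).Q} {u : Option (Tok × ℕ)} {v : Option Y} :
      (T x).step p u v p' → (∀ c, u = some c → c.2 ≤ k) → st3 (.lin q x p) u v (.lin q x p')
  | outL {q : M.Q} {x : X} {p : (T x).Q} {i : Fin (C + 2)} : p ∈ (T x).final → (i : ℕ) = 0 →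
      st3 (.lin q x p) (some (.r, k + 1)) none (.lft q i)
  | R {q q' : M.Q} {x : X} {i : Fin (C + 2)} : M.stR q x q' → (i : ℕ) = e x + 1 →
      st3 (.lft q i) (some (.l, k + 1)) none (.ldum q')
  | inR {q : M.Q} {c : Tok × ℕ} : c.2 ≤ k → st3 (.ldum q) (some c) none (.ldum q)
  | outR {q : M.Q} {i : Fin (C + 2)} : (i : ℕ) = 0 →
      st3 (.ldum q) (some (.r, k + 1)) none (.lft q i)
  | rL {i : Fin (C + 2)} {x : X} {p : (T x).Q} : (i : ℕ) = 0 → p ∈ (T x).start →
      st3 (.rcnt i) (some (.l, k + 1)) none (.rin x p)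
  | rin {x : X} {p p' : (T x).Q} {u : Option (Tok × ℕ)} {v : Option Y} :
      (T x).step p u v p' → (∀ c, u = some c → c.2 ≤ k) → st3 (.rin x p) u v (.rin x p')
  | rout {x : X} {p : (T x).Q} {i : Fin (C + 2)} : p ∈ (T x).final → (i : ℕ) = e x + 1 →
      st3 (.rin x p) (some (.r, k + 1)) none (.rcnt i)
  | rD {i : Fin (C + 2)} : (i : ℕ) = 0 → st3 (.rcnt i) (some (.l, k + 1)) none .rdum
  | rinD {c : Tok × ℕ} : c.2 ≤ k → st3 .rdum (some c) none .rdum
  | routD {i : Fin (C + 2)} : (i : ℕ) = 0 → st3 .rdum (some (.r, k + 1)) none (.rcnt i)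
  | b {i j : Fin (C + 2)} : (i : ℕ) = j + 1 → st3 (.rcnt i) (some (.b, k + 1)) none (.rcnt j)

/-- the transducer -/
def tr3 [Finite X] : Transducer (Tok × ℕ) Y where
  Q := S3 M T C
  finite := S3_finite M T C
  step := st3 M T C e k
  start := {s | s = .lft M.start 0}
  final := {s | s = .rcnt 0}

variable {M T C e k} [Finite X]

theorem run_lin {s s' : (tr3 M T C e k).Q} {w : List (Tok × ℕ)} {v : List Y}
    (h : (tr3 M T C e k).Run s w v s') : (∀ c ∈ w, c.2 ≤ k) →
    ∀ {q : M.Q} {x : X} {p : (T x).Q}, s = S3.lin q x p →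
      ∃ p', s' = S3.lin q x p' ∧ (T x).Run p w v p' := by
  induction h with
  | nil s => intro _ q x p hs; exact ⟨p, hs, Transducer.Run.nil p⟩
  | @cons s s1 s' a b u v hst _ ih =>
    intro hw q x p hs
    subst hs
    have hst' : st3 M T C e k (S3.lin q x p) a b s1 := hst
    cases hst' with
    | inL h1 h2 =>
      obtain ⟨p', h3, h4⟩ := ih (fun c hc => hw c (List.mem_append_right _ hc)) rfl
      exact ⟨p', h3, Transducer.Run.cons h1 h4⟩
    | outL h1 h2 =>
      have := hw (.r, k + 1) (by simp)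
      simp at this

theorem run_rin {s s' : (tr3 M T C e k).Q} {w : List (Tok × ℕ)} {v : List Y}
    (h : (tr3 M T C e k).Run s w v s') : (∀ c ∈ w, c.2 ≤ k) →
    ∀ {x : X} {p : (T x).Q}, s = S3.rin x p →
      ∃ p', s' = S3.rin x p' ∧ (T x).Run p w v p' := by
  induction h with
  | nil s => intro _ x p hs; exact ⟨p, hs, Transducer.Run.nil p⟩
  | @cons s s1 s' a b u v hst _ ih =>
    intro hw x p hs
    subst hs
    have hst' : st3 M T C e k (S3.rin x p) a b s1 := hst
    cases hst' with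
    | rin h1 h2 =>
      obtain ⟨p', h3, h4⟩ := ih (fun c hc => hw c (List.mem_append_right _ hc)) rfl
      exact ⟨p', h3, Transducer.Run.cons h1 h4⟩
    | rout h1 h2 =>
      have := hw (.r, k + 1) (by simp)
      simp at this

theorem run_ldum {s s' : (tr3 M T C e k).Q} {w : List (Tok × ℕ)} {v : List Y}
    (h : (tr3 M T C e k).Run s w v s') : (∀ c ∈ w, c.2 ≤ k) →
    ∀ {q : M.Q}, s = S3.ldum q → s' = S3.ldum q ∧ v = [] := by
  induction h with
  | nil s => intro _ q hs; exact ⟨hs, rfl⟩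
  | @cons s s1 s' a b u v hst _ ih =>
    intro hw q hs
    subst hs
    have hst' : st3 M T C e k (S3.ldum q) a b s1 := hst
    cases hst' with
    | inR h1 =>
      obtain ⟨h3, h4⟩ := ih (fun c hc => hw c (List.mem_append_right _ hc)) rfl
      exact ⟨h3, by rw [h4]; rfl⟩
    | outR h1 =>
      have := hw (.r, k + 1) (by simp)
      simp at this

theorem run_rdum {s s' : (tr3 M T C e k).Q} {w : List (Tok × ℕ)} {v : List Y}
    (h : (tr3 M T C e k).Run s w v s') : (∀ c ∈ w, c.2 ≤ k) →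
    s = S3.rdum → s' = S3.rdum ∧ v = [] := by
  induction h with
  | nil s => intro _ hs; exact ⟨hs, rfl⟩
  | @cons s s1 s' a b u v hst _ ih =>
    intro hw hs
    subst hs
    have hst' : st3 M T C e k S3.rdum a b s1 := hst
    cases hst' with
    | rinD h1 =>
      obtain ⟨h3, h4⟩ := ih (fun c hc => hw c (List.mem_append_right _ hc)) rfl
      exact ⟨h3, by rw [h4]; rfl⟩
    | routD h1 =>
      have := hw (.r, k + 1) (by simp)
      simp at this

theorem run_rcnt {s s' : (tr3 M T C e k).Q} {w : List (Tok × ℕ)} {v : List Y}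
    (h : (tr3 M T C e k).Run s w v s') : w = [] → ∀ {i : Fin (C + 2)}, s = S3.rcnt i →
      s' = S3.rcnt i ∧ v = [] := by
  induction h with
  | nil s => intro _ i hs; exact ⟨hs, rfl⟩
  | @cons s s1 s' a b u v hst _ ih =>
    intro hw i hs
    subst hs
    have hst' : st3 M T C e k (S3.rcnt i) a b s1 := hst
    cases hst' <;> simp at hw

theorem run_lft {σ : X → Language Y} {s s' : (tr3 M T C e k).Q} {w : List (Tok × ℕ)} {v : List Y}
    (h : (tr3 M T C e k).Run s w v s') : w = [] → ∀ {q : M.Q} {i : Fin (C + 2)},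
      s = S3.lft q i →
      ∃ q', s' = S3.lft q' i ∧ v = [] ∧ ∀ v', SG M σ q' v' → SG M σ q v' := by
  induction h with
  | nil s => intro _ q i hs; exact ⟨q, hs, rfl, fun v' h => h⟩
  | @cons s s1 s' a b u v hst _ ih =>
    intro hw q i hs
    subst hs
    have hst' : st3 M T C e k (S3.lft q i) a b s1 := hst
    cases hst' with
    | eps h1 =>
      obtain ⟨q', h2, h3, h4⟩ := ih (by simpa using hw) rfl
      exact ⟨q', h2, by rw [h3]; rfl, fun v' h => SG.eps h1 (h4 v' h)⟩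
    | a _ => simp at hw
    | fin _ _ => simp at hw
    | L _ _ _ => simp at hw
    | R _ _ => simp at hw

/-- the left bracket -/
theorem left_br {σ : X → Language Y} (hσ : ∀ x v, v ∈ σ x ↔ ∃ u ∈ VL k, (T x).rel u v)
    {q : M.Q} {i : Fin (C + 2)} {x w : List (Tok × ℕ)} {v : List Y} {s : (tr3 M T C e k).Q}
    (hx : VW k x)
    (h : (tr3 M T C e k).Run (S3.lft q i) ((.l, k + 1) :: (x ++ ((.r, k + 1) :: w))) v s) :
    ∃ q' v1 v', (tr3 M T C e k).Run (S3.lft q' 0) w v' s ∧ v = v1 ++ v' ∧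
      (((i : ℕ) = 0 ∧ ∀ v'', SG M σ q' v'' → SG M σ q (v1 ++ v'')) ∨
        ∃ y, (i : ℕ) = e y + 1 ∧ v1 = [] ∧
          ∀ v2 v'', v2 ∈ σ y → SG M σ q' v'' → SG M σ q (v'' ++ v2)) := by
  obtain ⟨s1, s2, y, v1, v2, h1, h2, h3, rfl⟩ := h.cons_inv rfl
  obtain ⟨q1, rfl, rfl, hq1⟩ := run_lft (σ := σ) h1 rfl rfl
  obtain ⟨s3, v3, v4, h4, h5, rfl⟩ := Transducer.Run.app_inv x h3
  obtain ⟨s4, s5, y', v5, v6, h6, h7, h8, rfl⟩ := h5.cons_inv rfl
  have h2' : st3 M T C e k (S3.lft q1 i) (some (.l, k + 1)) y s2 := h2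
  cases h2' with
  | @L _ q2 x0 _ p g1 g2 g3 =>
    obtain ⟨p', rfl, g4⟩ := run_lin h4 hx.level rfl
    obtain ⟨p'', rfl, g5⟩ := run_lin h6 (by simp) rfl
    have h7' : st3 M T C e k (S3.lin q2 x0 p'') (some (.r, k + 1)) y' s5 := h7
    cases h7' with
    | inL _ g6 =>
      have := g6 _ rfl
      simp at this
    | @outL _ _ _ i' g6 g7 =>
      obtain rfl : i' = 0 := Fin.ext g7
      refine ⟨q2, v3 ++ v5, v6, h8, by simp, Or.inl ⟨g2, ?_⟩⟩
      intro v'' hv
      refine hq1 _ (SG.left g1 ?_ hv)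
      rw [hσ]
      refine ⟨x, hx, p, g3, p'', g6, ?_⟩
      have := g4.trans g5
      simpa using this
  | @R _ q2 x0 _ g1 g2 =>
    obtain ⟨rfl, rfl⟩ := run_ldum h4 hx.level rfl
    obtain ⟨rfl, rfl⟩ := run_ldum h6 (by simp) rfl
    have h7' : st3 M T C e k (S3.ldum q2) (some (.r, k + 1)) y' s5 := h7
    cases h7' with
    | inR g6 => simp at g6
    | @outR _ i' g7 =>
      obtain rfl : i' = 0 := Fin.ext g7
      refine ⟨q2, [], v6, h8, by simp, Or.inr ⟨x0, g2, rfl, ?_⟩⟩
      intro v2 v'' hv2 hv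
      exact hq1 _ (SG.right g1 hv2 hv)

/-- the right bracket -/
theorem right_br {σ : X → Language Y} (hσ : ∀ x v, v ∈ σ x ↔ ∃ u ∈ VL k, (T x).rel u v)
    {i : Fin (C + 2)} {x : List (Tok × ℕ)} {v : List Y} {s : (tr3 M T C e k).Q} (hx : VW k x)
    (h : (tr3 M T C e k).Run (S3.rcnt i) ((.l, k + 1) :: (x ++ [(.r, k + 1)])) v s) :
    (i : ℕ) = 0 ∧ ∃ l : Fin (C + 2), s = S3.rcnt l ∧
      (((l : ℕ) = 0 ∧ v = []) ∨ ∃ y, (l : ℕ) = e y + 1 ∧ v ∈ σ y) := by
  obtain ⟨s1, s2, y, v1, v2, h1, h2, h3, rfl⟩ := h.cons_inv rfl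
  obtain ⟨rfl, rfl⟩ := run_rcnt h1 rfl rfl
  obtain ⟨s3, v3, v4, h4, h5, rfl⟩ := Transducer.Run.app_inv x h3
  obtain ⟨s4, s5, y', v5, v6, h6, h7, h8, rfl⟩ := h5.cons_inv rfl
  have h2' : st3 M T C e k (S3.rcnt i) (some (.l, k + 1)) y s2 := h2
  cases h2' with
  | @rL _ x0 p g2 g3 =>
    obtain ⟨p', rfl, g4⟩ := run_rin h4 hx.level rfl
    obtain ⟨p'', rfl, g5⟩ := run_rin h6 (by simp) rfl
    have h7' : st3 M T C e k (S3.rin x0 p'') (some (.r, k + 1)) y' s5 := h7
    cases h7' with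
    | rin _ g6 =>
      have := g6 _ rfl
      simp at this
    | @rout _ _ i' g6 g7 =>
      obtain ⟨rfl, rfl⟩ := run_rcnt h8 rfl rfl
      refine ⟨g2, i', rfl, Or.inr ⟨x0, g7, ?_⟩⟩
      rw [hσ]
      refine ⟨x, hx, p, g3, p'', g6, ?_⟩
      have := g4.trans g5
      simpa using this
  | rD g2 =>
    obtain ⟨rfl, rfl⟩ := run_rdum h4 hx.level rfl
    obtain ⟨rfl, rfl⟩ := run_rdum h6 (by simp) rfl
    have h7' : st3 M T C e k S3.rdum (some (.r, k + 1)) y' s5 := h7
    cases h7' with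
    | rinD g6 => simp at g6
    | @routD i' g7 =>
      obtain ⟨rfl, rfl⟩ := run_rcnt h8 rfl rfl
      exact ⟨g2, i', rfl, Or.inl ⟨g7, by simp⟩⟩

/-- soundness -/
theorem sound3 {σ : X → Language Y} (hσ : ∀ x v, v ∈ σ x ↔ ∃ u ∈ VL k, (T x).rel u v)
    (he : Function.Injective e) {k' : ℕ} {w : List (Tok × ℕ)} (hw : VW k' w) : k' = k + 1 →
    ∀ {q : M.Q} {i : Fin (C + 2)} {v : List Y} {s : (tr3 M T C e k).Q},
      (tr3 M T C e k).Run (S3.lft q i) w v s →
      ∃ l : Fin (C + 2), s = S3.rcnt l ∧ ((l : ℕ) = i → SG M σ q v) := by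
  induction hw with
  | d k1 =>
    intro hk q i v s h
    subst hk
    obtain ⟨s1, s2, y, v1, v2, h1, h2, h3, rfl⟩ := h.cons_inv rfl
    obtain ⟨q1, rfl, rfl, hq1⟩ := run_lft (σ := σ) h1 rfl rfl
    have h2' : st3 M T C e k (S3.lft q1 i) (some (.d, k + 1)) y s2 := h2
    cases h2' with
    | fin g1 g2 =>
      obtain ⟨rfl, rfl⟩ := run_rcnt h3 rfl rfl
      exact ⟨i, rfl, fun _ => hq1 _ (SG.fin g1)⟩
  | a k1 w hw ih =>
    intro hk q i v s h
    subst hk
    obtain ⟨s1, s2, y, v1, v2, h1, h2, h3, rfl⟩ := h.cons_inv rfl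
    obtain ⟨q1, rfl, rfl, hq1⟩ := run_lft (σ := σ) h1 rfl rfl
    obtain ⟨s3, v3, v4, h4, h5, rfl⟩ := Transducer.Run.app_inv w h3
    have h2' : st3 M T C e k (S3.lft q1 i) (some (.a, k + 1)) y s2 := h2
    cases h2' with
    | @a _ _ j g1 =>
      obtain ⟨l, rfl, hl⟩ := ih rfl h4
      obtain ⟨s4, s5, y', v5, v6, h6, h7, h8, rfl⟩ := h5.cons_inv rfl
      obtain ⟨rfl, rfl⟩ := run_rcnt h6 rfl rfl
      have h7' : st3 M T C e k (S3.rcnt l) (some (.b, k + 1)) y' s5 := h7
      cases h7' with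
      | @b _ j' g2 =>
        obtain ⟨rfl, rfl⟩ := run_rcnt h8 rfl rfl
        refine ⟨j', rfl, ?_⟩
        intro hj
        have := hq1 _ (hl (by omega))
        simpa using this
  | br k1 x w y hx hw hy _ ih _ =>
    intro hk q i v s h
    obtain rfl : k1 = k := by omega
    obtain ⟨q', v1, v', h1, rfl, h2⟩ := left_br hσ hx h
    obtain ⟨s1, v2, v3, h3, h4, rfl⟩ := Transducer.Run.app_inv w h1
    obtain ⟨l, rfl, hl⟩ := ih rfl h3
    obtain ⟨h5, l', rfl, h6⟩ := right_br hσ hy h4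
    refine ⟨l', rfl, fun hl' => ?_⟩
    have hSG := hl (by simpa using h5)
    rcases h2 with ⟨h7, h8⟩ | ⟨y0, h7, rfl, h8⟩
    · rcases h6 with ⟨h9, rfl⟩ | ⟨y1, h9, h10⟩
      · rw [List.append_nil]
        exact h8 _ hSG
      · omega
    · rcases h6 with ⟨h9, rfl⟩ | ⟨y1, h9, h10⟩
      · omega
      · obtain rfl : y1 = y0 := he (by omega)
        rw [List.nil_append]
        exact h8 _ _ h10 hSG

theorem run_lin' {q : M.Q} {x : X} {p p' : (T x).Q} {w : List (Tok × ℕ)} {v : List Y}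
    (h : (T x).Run p w v p') : (∀ c ∈ w, c.2 ≤ k) →
    (tr3 M T C e k).Run (S3.lin q x p) w v (S3.lin q x p') := by
  induction h with
  | nil p => intro _; exact Transducer.Run.nil (T := tr3 M T C e k) (S3.lin q x p)
  | @cons p p1 p' a b u v hst _ ih =>
    intro hw
    refine Transducer.Run.cons (T := tr3 M T C e k) (q := S3.lin q x p1) ?_
      (ih fun c hc => hw c (List.mem_append_right _ hc))
    refine st3.inL hst ?_
    rintro c rfl
    exact hw c (by simp)

theorem run_rin' {x : X} {p p' : (T x).Q} {w : List (Tok × ℕ)} {v : List Y}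
    (h : (T x).Run p w v p') : (∀ c ∈ w, c.2 ≤ k) →
    (tr3 M T C e k).Run (S3.rin x p) w v (S3.rin x p') := by
  induction h with
  | nil p => intro _; exact Transducer.Run.nil (T := tr3 M T C e k) (S3.rin x p)
  | @cons p p1 p' a b u v hst _ ih =>
    intro hw
    refine Transducer.Run.cons (T := tr3 M T C e k) (q := S3.rin x p1) ?_
      (ih fun c hc => hw c (List.mem_append_right _ hc))
    refine st3.rin hst ?_
    rintro c rfl
    exact hw c (by simp)

/-- completeness -/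
theorem complete3 {σ : X → Language Y} (hσ : ∀ x v, v ∈ σ x ↔ ∃ u ∈ VL k, (T x).rel u v)
    (hC : ∀ x, e x < C) {q : M.Q} {v : List Y} (h : SG M σ q v) :
    ∃ w, VW (k + 1) w ∧ (tr3 M T C e k).Run (S3.lft q 0) w v (S3.rcnt 0) := by
  have one : ∀ {s s' : (tr3 M T C e k).Q} {c : Tok × ℕ} {w : List (Tok × ℕ)} {v : List Y}
      {s'' : (tr3 M T C e k).Q}, st3 M T C e k s (some c) none s' →
      (tr3 M T C e k).Run s' w v s'' → (tr3 M T C e k).Run s (c :: w) v s'' :=
    fun h1 h2 => Transducer.Run.cons (T := tr3 M T C e k) h1 h2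
  have dum : VW k [(.d, k)] := VW.d k
  induction h with
  | @fin q h =>
    exact ⟨_, VW.d _, one (st3.fin h rfl) (Transducer.Run.nil (T := tr3 M T C e k) (S3.rcnt 0))⟩
  | @eps q q' v h _ ih =>
    obtain ⟨w, h1, h2⟩ := ih
    refine ⟨w, h1, ?_⟩
    exact Transducer.Run.cons (T := tr3 M T C e k) (p := S3.lft q 0) (x := none) (y := none)
      (st3.eps h) h2
  | @left q q' x v1 v h hv _ ih =>
    obtain ⟨w, h1, h2⟩ := ih
    obtain ⟨x1, hx1, p, hp, p', hp', hr⟩ := (hσ _ _).1 hv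
    refine ⟨_, VW.br k x1 w _ hx1 h1 dum, ?_⟩
    refine one (st3.L h rfl hp) ?_
    refine (run_lin' hr (VW.level hx1)).trans ?_
    refine one (st3.outL hp' (i := 0) rfl) ?_
    have h3 : (tr3 M T C e k).Run (S3.rcnt 0) ((Tok.l, k + 1) :: ([(Tok.d, k)] ++
        [(Tok.r, k + 1)])) [] (S3.rcnt 0) := by
      refine one (st3.rD rfl) ?_
      refine one (st3.rinD (by simp)) ?_
      exact one (st3.routD (i := 0) rfl) (Transducer.Run.nil (T := tr3 M T C e k) (S3.rcnt 0))
    have := h2.trans h3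
    rwa [List.append_nil] at this
  | @right q q' x v2 v h hv _ ih =>
    obtain ⟨w, h1, h2⟩ := ih
    obtain ⟨x1, hx1, p, hp, p', hp', hr⟩ := (hσ _ _).1 hv
    have hC' := hC x
    -- the inner word
    have h3 : ∀ i : Fin (C + 2), (i : ℕ) = e x + 1 → (tr3 M T C e k).Run (S3.lft q i)
        ((.l, k + 1) :: ([(.d, k)] ++ ((.r, k + 1) :: (w ++ ((.l, k + 1) :: (x1 ++
        [(.r, k + 1)])))))) (v ++ v2) (S3.rcnt i) := by
      intro i hi
      refine one (st3.R h hi) ?_
      refine one (st3.inR (by simp)) ?_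
      refine one (st3.outR (i := 0) rfl) ?_
      refine h2.trans ?_
      refine one (st3.rL rfl hp) ?_
      have h4 := (run_rin' (M := M) (C := C) (e := e) hr (VW.level hx1)).trans
        (one (st3.rout hp' hi) (Transducer.Run.nil (T := tr3 M T C e k) (S3.rcnt i)))
      rwa [List.append_nil] at h4
    -- the powers of `a` and `b`
    have h5 : ∀ (m : ℕ) (j : Fin (C + 2)), (j : ℕ) + m = e x + 1 → ∃ w', VW (k + 1) w' ∧
        (tr3 M T C e k).Run (S3.lft q j) w' (v ++ v2) (S3.rcnt j) := by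
      intro m
      induction m with
      | zero => intro j hj; exact ⟨_, VW.br k _ w x1 dum h1 hx1, h3 j (by omega)⟩
      | succ m ih =>
        intro j hj
        obtain ⟨w', h6, h7⟩ := ih ⟨j + 1, by omega⟩ (by show (j : ℕ) + 1 + m = e x + 1; omega)
        refine ⟨_, VW.a _ _ h6, ?_⟩
        refine one (st3.a (j := ⟨j + 1, by omega⟩) rfl) ?_
        have h8 := h7.trans (one (st3.b (i := ⟨j + 1, by omega⟩) (j := j) rfl)
          (Transducer.Run.nil (T := tr3 M T C e k) (S3.rcnt j)))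
        rwa [List.append_nil] at h8
    exact h5 (e x + 1) 0 (by simp)

/-- substitution of images of `VL k` into a linear language -/
theorem inCone_subst {L : Language X} {σ : X → Language Y} (hL : IsLinear L)
    (hσ : ∀ x, InCone (VL k) (σ x)) : InCone (VL (k + 1)) (subst σ L) := by
  obtain ⟨M, hM⟩ := linear_LA hL
  have hσ' := fun x => inCone_iff.1 (hσ x)
  choose T hT using hσ'
  obtain ⟨C, ⟨e0⟩⟩ := Finite.exists_equiv_fin X
  let e : X → ℕ := fun x => e0 x
  have he : Function.Injective e := fun x y h => e0.injective (Fin.ext h)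
  have hC : ∀ x, e x < C := fun x => (e0 x).2
  rw [inCone_iff]
  refine ⟨tr3 M T C e k, fun v => ?_⟩
  have key : v ∈ subst σ L ↔ SG M σ M.start v := by
    rw [SG_iff]
    constructor
    · rintro ⟨u, hu, hv⟩
      exact ⟨u, (hM u).1 hu, hv⟩
    · rintro ⟨u, hu, hv⟩
      exact ⟨u, (hM u).2 hu, hv⟩
  rw [key]
  constructor
  · intro h
    obtain ⟨w, h1, h2⟩ := complete3 (T := T) (e := e) hT hC h
    exact ⟨w, h1, S3.lft M.start 0, rfl, S3.rcnt 0, rfl, h2⟩
  · rintro ⟨w, hw, s, rfl, s', rfl, hr⟩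
    obtain ⟨l, h1, h2⟩ := sound3 (T := T) (e := e) hT he hw rfl hr
    have h3 : l = 0 := by
      injection h1 with h1
      exact h1.symm
    exact h2 (by rw [h3])

end trans

end Pool.Agent.N614.QR
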