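import Mathlib
import Pool.Agent.N614.QR.Sub
import Pool.Agent.N614.QR.Low

set_option autoImplicit false

/-!
# All quasi-rational languages are in the cone of `Lang`
-/

namespace Pool.Agent.N614.QR

/-- iterated substitution into linear languages -/
inductive QL : ℕ → (Y : Type) → Language Y → Prop
  | sing (k : ℕ) {Y : Type} (y : Y) : QL k Y {[y]}
  | sub {k : ℕ} {X Y : Type} [Finite X] {L : Language X} {σ : X → Language Y} :
      IsLinear L → (∀ x, QL k Y (σ x)) → QL (k + 1) Y (subst σ L)

theorem QL.mono {k : ℕ} {Y : Type} {L : Language Y} (h : QL k Y L) : ∀ {k' : ℕ}, k ≤ k' →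
    QL k' Y L := by
  induction h with
  | sing k y => intro k' _; exact QL.sing k' y
  | @sub k X Y _ L σ hL _ ih =>
    intro k' hk
    obtain ⟨k'', rfl⟩ : ∃ k'', k' = k'' + 1 := ⟨k' - 1, by omega⟩
    exact QL.sub hL (fun x => ih x (by omega))

theorem subst_sing {X Y : Type} (τ : X → Language Y) (x : X) : subst τ {[x]} = τ x := by
  ext v
  constructor
  · rintro ⟨u, hu, hv⟩
    have : u = [x] := hu
    subst this
    simpa using hv
  · intro hv
    exact ⟨[x], rfl, by simpa using hv⟩

theorem subst_id {X : Type} (L : Language X) : subst (fun x => ({[x]} : Language X)) L = L := by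
  have key : ∀ (u v : List X), v ∈ (u.map (fun x => ({[x]} : Language X))).prod ↔ v = u := by
    intro u
    induction u with
    | nil => intro v; simp [Language.mem_one]
    | cons x u ih =>
      intro v
      rw [List.map_cons, List.prod_cons, Language.mem_mul]
      constructor
      · rintro ⟨a, ha, b, hb, rfl⟩
        have ha' : a = [x] := ha
        rw [ha', (ih b).1 hb]
        rfl
      · rintro rfl
        exact ⟨[x], rfl, u, (ih u).2 rfl, rfl⟩
  ext v
  constructor
  · rintro ⟨u, hu, hv⟩
    rw [(key u v).1 hv]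
    exact hu
  · intro hv
    exact ⟨v, hv, (key v v).2 rfl⟩

theorem prod_subst {X Y Z : Type} (τ : Y → Language Z) (σ : X → Language Y) : ∀ (u : List X)
    (v : List Z), v ∈ (u.map (fun x => subst τ (σ x))).prod ↔ v ∈ subst τ (u.map σ).prod := by
  intro u
  induction u with
  | nil =>
    intro v
    constructor
    · intro h
      exact ⟨[], by simp [Language.mem_one], by simpa using h⟩
    · rintro ⟨w, hw, hv⟩
      have : w = [] := by simpa [Language.mem_one] using hw
      subst this
      simpa using hv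
  | cons x u ih =>
    intro v
    rw [List.map_cons, List.prod_cons, Language.mem_mul, List.map_cons, List.prod_cons]
    constructor
    · rintro ⟨v1, ⟨w1, hw1, hv1⟩, v2, hv2, rfl⟩
      obtain ⟨w2, hw2, hv2'⟩ := (ih v2).1 hv2
      refine ⟨w1 ++ w2, Language.append_mem_mul hw1 hw2, ?_⟩
      rw [List.map_append, List.prod_append]
      exact Language.append_mem_mul hv1 hv2'
    · rintro ⟨w, hw, hv⟩
      rw [Language.mem_mul] at hw
      obtain ⟨w1, hw1, w2, hw2, rfl⟩ := hw
      rw [List.map_append, List.prod_append, Language.mem_mul] at hv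
      obtain ⟨v1, hv1, v2, hv2, rfl⟩ := hv
      exact ⟨v1, ⟨w1, hw1, hv1⟩, v2, (ih v2).2 ⟨w2, hw2, hv2⟩, rfl⟩

theorem subst_assoc {X Y Z : Type} (τ : Y → Language Z) (σ : X → Language Y) (L : Language X) :
    subst τ (subst σ L) = subst (fun x => subst τ (σ x)) L := by
  ext v
  constructor
  · rintro ⟨w, ⟨u, hu, hw⟩, hv⟩
    exact ⟨u, hu, (prod_subst τ σ u v).2 ⟨w, hw, hv⟩⟩
  · rintro ⟨u, hu, hv⟩
    obtain ⟨w, hw, hv'⟩ := (prod_subst τ σ u v).1 hv
    exact ⟨w, ⟨u, hu, hw⟩, hv'⟩

theorem QL.subst {k : ℕ} {X : Type} {L : Language X} (h : QL k X L) : ∀ {m : ℕ} {Y : Type}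
    {τ : X → Language Y}, (∀ x, QL m Y (τ x)) → QL (k + m) Y (subst τ L) := by
  induction h with
  | @sing k X x =>
    intro m Y τ hτ
    rw [subst_sing]
    exact (hτ x).mono (by omega)
  | @sub k X0 X _ L σ hL _ ih =>
    intro m Y τ hτ
    rw [subst_assoc]
    have e : k + 1 + m = k + m + 1 := by omega
    rw [e]
    exact QL.sub hL (fun x => ih x hτ)

theorem QL_of {Y : Type} {K : Language Y} (h : QuasiRational Y K) : ∃ k, QL k Y K := by
  induction h with
  | @linear X _ L hL =>
    refine ⟨1, ?_⟩
    have := QL.sub (k := 0) hL (σ := fun x => ({[x]} : Language X)) (fun x => QL.sing 0 x)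
    rwa [subst_id] at this
  | @subst X Y _ _ L σ _ _ ih1 ih2 =>
    obtain ⟨k, hk⟩ := ih1
    choose m hm using ih2
    have : Fintype X := Fintype.ofFinite X
    refine ⟨k + Finset.univ.sup m, hk.subst fun x => (hm x).mono ?_⟩
    exact Finset.le_sup (Finset.mem_univ x)

/-- the transducer which maps the word `[x]` to `[y]` -/
def trS {X Y : Type} (x : X) (y : Y) : Transducer X Y where
  Q := Bool
  finite := inferInstance
  step := fun p a b q => p = false ∧ q = true ∧ a = some x ∧ b = some y
  start := {false}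
  final := {true}

theorem trS_run {X Y : Type} {x : X} {y : Y} {p q : (trS x y).Q} {u : List X} {v : List Y}
    (h : (trS x y).Run p u v q) :
    (p = q ∧ u = [] ∧ v = []) ∨ (p = false ∧ q = true ∧ u = [x] ∧ v = [y]) := by
  induction h with
  | nil p => exact Or.inl ⟨rfl, rfl, rfl⟩
  | @cons p q r a b u v hs _ ih =>
    obtain ⟨h1, h2, rfl, rfl⟩ := hs
    rcases ih with ⟨rfl, rfl, rfl⟩ | ⟨h3, -⟩
    · exact Or.inr ⟨h1, h2, rfl, rfl⟩
    · rw [h2] at h3
      cases h3

theorem QL.inCone {k : ℕ} {Y : Type} {K : Language Y} (h : QL k Y K) : InCone (VL k) K := by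
  induction h with
  | @sing k Y y =>
    rw [inCone_iff]
    refine ⟨trS (.d, k) y, fun v => ?_⟩
    constructor
    · intro hv
      have hv' : v = [y] := hv
      subst hv'
      refine ⟨_, VW.d k, false, rfl, true, rfl, ?_⟩
      exact Transducer.Run.single (T := trS (Tok.d, k) y) (x := some (.d, k)) (y := some y)
        ⟨rfl, rfl, rfl, rfl⟩
    · rintro ⟨u, hu, p, hp, q, hq, hr⟩
      have hp' : p = false := hp
      have hq' : q = true := hq
      subst hp' hq'
      rcases trS_run hr with ⟨h, -⟩ | ⟨-, -, -, h⟩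
      · cases h
      · exact h
  | @sub k X Y _ L σ hL _ ih => exact inCone_subst hL ih

theorem quasiRational_inCone {Y : Type} {K : Language Y} (h : QuasiRational Y K) :
    InCone Lang K := by
  obtain ⟨k, hk⟩ := QL_of h
  exact (VL_inCone k).trans hk.inCone

/-- the main theorem -/
theorem main : ∃ (X : Type) (_ : Finite X) (L : Language X), L.IsContextFree ∧
    (∀ (Y : Type) [Finite Y] (K : Language Y), QuasiRational Y K → InCone L K) ∧
    ∃ (Y : Type) (_ : Finite Y) (N : Language Y), N.IsContextFree ∧ ¬ InCone L N :=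
  ⟨Sg, inferInstance, Lang, Lang_cf, fun _ _ _ h => quasiRational_inCone h,
    Fin 4, inferInstance, E, E_cf, E_not⟩

end Pool.Agent.N614.QR
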